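import Pool.Agent.Helper539.LGMain

/-! Block automorphisms of lexicographic products of chains. -/

namespace Pool.Agent.Y42.AB

open Pool.Agent.Helper539.LG

variable {I Λ : Type*} [LinearOrder I] [LinearOrder Λ]

theorem aut_lt (f : Aut Λ) {x y : Λ} (h : x < y) : f x < f y :=
  lt_of_le_of_ne (f.le_apply.mpr h.le) (fun e => h.not_ge (f.le_apply.mp e.ge))

/-- `(i, l) ↦ (i, F i l)`. -/
def blk (F : I → Aut Λ) : Aut (I ×ₗ Λ) := mkAut
  (fun x => toLex ((ofLex x).1, F (ofLex x).1 (ofLex x).2))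
  (fun x => toLex ((ofLex x).1, (F (ofLex x).1)⁻¹ (ofLex x).2))
  (by intro x; simp [Aut.inv_apply])
  (by intro x; simp [Aut.apply_inv])
  (by
    intro x y h
    rw [Prod.Lex.lt_iff] at h ⊢
    rcases h with h | ⟨h, h'⟩
    · exact Or.inl h
    · refine Or.inr ⟨h, ?_⟩
      show F (ofLex x).1 (ofLex x).2 < F (ofLex y).1 (ofLex y).2
      have h1 : (ofLex x).1 = (ofLex y).1 := h
      rw [h1]
      exact aut_lt _ h')

/-- `(i, l) ↦ (σ i, l)`. -/
def top (σ : Aut I) : Aut (I ×ₗ Λ) := mkAut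
  (fun x => toLex (σ (ofLex x).1, (ofLex x).2))
  (fun x => toLex (σ⁻¹ (ofLex x).1, (ofLex x).2))
  (by intro x; simp [Aut.inv_apply])
  (by intro x; simp [Aut.apply_inv])
  (by
    intro x y h
    rw [Prod.Lex.lt_iff] at h ⊢
    rcases h with h | ⟨h, h'⟩
    · exact Or.inl (aut_lt σ h)
    · refine Or.inr ⟨?_, h'⟩
      show σ (ofLex x).1 = σ (ofLex y).1
      have h1 : (ofLex x).1 = (ofLex y).1 := h
      rw [h1])

theorem blk_apply (F : I → Aut Λ) (i : I) (l : Λ) :
    blk F (toLex (i, l)) = toLex (i, F i l) := rfl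

theorem top_apply (σ : Aut I) (i : I) (l : Λ) :
    (top σ : Aut (I ×ₗ Λ)) (toLex (i, l)) = toLex (σ i, l) := rfl

theorem lex_ext {f g : Aut (I ×ₗ Λ)} (h : ∀ i l, f (toLex (i, l)) = g (toLex (i, l))) : f = g := by
  apply Aut.ext
  intro x
  exact h (ofLex x).1 (ofLex x).2

theorem lex_le {f g : Aut (I ×ₗ Λ)} (h : ∀ i l, f (toLex (i, l)) ≤ g (toLex (i, l))) : f ≤ g := by
  intro x
  exact h (ofLex x).1 (ofLex x).2

theorem toLex_le (i : I) {l l' : Λ} (h : l ≤ l') : toLex (i, l) ≤ toLex (i, l') := by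
  rw [Prod.Lex.le_iff]
  exact Or.inr ⟨rfl, h⟩

theorem toLex_le_fst {i j : I} (h : i ≤ j) (l : Λ) : toLex (i, l) ≤ toLex (j, l) := by
  rw [Prod.Lex.le_iff]
  rcases lt_or_eq_of_le h with h | h
  · exact Or.inl h
  · exact Or.inr ⟨h, le_rfl⟩

theorem blk_le {F G : I → Aut Λ} (h : ∀ i, F i ≤ G i) : blk F ≤ blk G := by
  apply lex_le
  intro i l
  rw [blk_apply, blk_apply]
  exact toLex_le i (h i l)

theorem blk_one : blk (fun _ : I => (1 : Aut Λ)) = 1 := by
  apply lex_ext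
  intro i l
  rfl

theorem blk_mul (F G : I → Aut Λ) : blk (fun i => F i * G i) = blk F * blk G := by
  apply lex_ext
  intro i l
  rfl

theorem blk_inf (F G : I → Aut Λ) : blk (fun i => F i ⊓ G i) = blk F ⊓ blk G := by
  apply lex_ext
  intro i l
  rw [Aut.inf_apply, blk_apply, blk_apply, blk_apply, Aut.inf_apply]
  rcases le_total (F i l) (G i l) with h | h
  · rw [min_eq_left h, min_eq_left (toLex_le i h)]
  · rw [min_eq_right h, min_eq_right (toLex_le i h)]

theorem blk_sup (F G : I → Aut Λ) : blk (fun i => F i ⊔ G i) = blk F ⊔ blk G := by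
  apply lex_ext
  intro i l
  rw [Aut.sup_apply, blk_apply, blk_apply, blk_apply, Aut.sup_apply]
  rcases le_total (F i l) (G i l) with h | h
  · rw [max_eq_right h, max_eq_right (toLex_le i h)]
  · rw [max_eq_left h, max_eq_left (toLex_le i h)]

theorem top_mul (σ τ : Aut I) : (top (σ * τ) : Aut (I ×ₗ Λ)) = top σ * top τ := by
  apply lex_ext
  intro i l
  rfl

theorem top_one : (top (1 : Aut I) : Aut (I ×ₗ Λ)) = 1 := by
  apply lex_ext
  intro i l
  rfl

theorem top_inv (σ : Aut I) : (top σ⁻¹ : Aut (I ×ₗ Λ)) = (top σ)⁻¹ := by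
  apply eq_inv_of_mul_eq_one_left
  rw [← top_mul, inv_mul_cancel, top_one]

theorem top_inf (σ τ : Aut I) : (top (σ ⊓ τ) : Aut (I ×ₗ Λ)) = top σ ⊓ top τ := by
  apply lex_ext
  intro i l
  rw [Aut.inf_apply, top_apply, top_apply, top_apply, Aut.inf_apply]
  rcases le_total (σ i) (τ i) with h | h
  · rw [min_eq_left h, min_eq_left (toLex_le_fst h l)]
  · rw [min_eq_right h, min_eq_right (toLex_le_fst h l)]

theorem top_sup (σ τ : Aut I) : (top (σ ⊔ τ) : Aut (I ×ₗ Λ)) = top σ ⊔ top τ := by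
  apply lex_ext
  intro i l
  rw [Aut.sup_apply, top_apply, top_apply, top_apply, Aut.sup_apply]
  rcases le_total (σ i) (τ i) with h | h
  · rw [max_eq_right h, max_eq_right (toLex_le_fst h l)]
  · rw [max_eq_left h, max_eq_left (toLex_le_fst h l)]

theorem one_le_top {σ : Aut I} (h : 1 ≤ σ) : (1 : Aut (I ×ₗ Λ)) ≤ top σ := by
  apply lex_le
  intro i l
  rw [top_apply, Aut.one_apply]
  exact toLex_le_fst (h i) l

theorem top_conj (σ : Aut I) (F : I → Aut Λ) :
    top σ * blk F * (top σ)⁻¹ = blk (fun i => F (σ⁻¹ i)) := by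
  rw [mul_inv_eq_iff_eq_mul]
  apply lex_ext
  intro i l
  rw [Aut.mul_apply, Aut.mul_apply, blk_apply, top_apply, top_apply, blk_apply, Aut.inv_apply]

/-- An ℓ-homomorphism. -/
def IsLHom {A B : Type*} [Group A] [Lattice A] [Group B] [Lattice B] (f : A →* B) : Prop :=
  (∀ x y, f (x ⊓ y) = f x ⊓ f y) ∧ (∀ x y, f (x ⊔ y) = f x ⊔ f y)

section Hom

variable {G : Type*} [Group G] [Lattice G]

/-- Block homomorphism. -/
def blkHom (φ : I → (G →* Aut Λ)) : G →* Aut (I ×ₗ Λ) where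
  toFun x := blk (fun i => φ i x)
  map_one' := by simp only [map_one, blk_one]
  map_mul' x y := by simp only [map_mul, blk_mul]

theorem blkHom_apply (φ : I → (G →* Aut Λ)) (x : G) : blkHom φ x = blk (fun i => φ i x) := rfl

theorem blkHom_isLHom {φ : I → (G →* Aut Λ)} (h : ∀ i, IsLHom (φ i)) : IsLHom (blkHom φ) := by
  constructor
  · intro x y
    rw [blkHom_apply, blkHom_apply, blkHom_apply, ← blk_inf]
    simp only [(h _).1]
  · intro x y
    rw [blkHom_apply, blkHom_apply, blkHom_apply, ← blk_sup]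
    simp only [(h _).2]

theorem blk_inj {F : I → Aut Λ} (h : blk F = 1) (i : I) : F i = 1 := by
  apply Aut.ext
  intro l
  have h1 : blk F (toLex (i, l)) = (1 : Aut (I ×ₗ Λ)) (toLex (i, l)) := by rw [h]
  rw [blk_apply, Aut.one_apply] at h1
  exact (Prod.ext_iff.mp (toLex.injective h1)).2

theorem top_inj [Nonempty Λ] {σ : Aut I} (h : (top σ : Aut (I ×ₗ Λ)) = 1) : σ = 1 := by
  apply Aut.ext
  intro i
  obtain ⟨l⟩ := ‹Nonempty Λ›
  have h1 : (top σ : Aut (I ×ₗ Λ)) (toLex (i, l)) = (1 : Aut (I ×ₗ Λ)) (toLex (i, l)) := by rw [h]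
  rw [top_apply, Aut.one_apply] at h1
  exact (Prod.ext_iff.mp (toLex.injective h1)).1

/-- Homomorphism through the top coordinate. -/
def topHom (φ : G →* Aut I) : G →* Aut (I ×ₗ Λ) where
  toFun x := top (φ x)
  map_one' := by simp only [map_one, top_one]
  map_mul' x y := by simp only [map_mul, top_mul]

theorem topHom_apply (φ : G →* Aut I) (x : G) : (topHom φ : G →* Aut (I ×ₗ Λ)) x = top (φ x) := rfl

theorem topHom_isLHom {φ : G →* Aut I} (h : IsLHom φ) :
    IsLHom (topHom φ : G →* Aut (I ×ₗ Λ)) := by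
  constructor
  · intro x y
    rw [topHom_apply, topHom_apply, topHom_apply, ← top_inf, h.1]
  · intro x y
    rw [topHom_apply, topHom_apply, topHom_apply, ← top_sup, h.2]

theorem one_isLHom : IsLHom (1 : G →* Aut Λ) := by
  constructor
  · intro x y
    show (1 : Aut Λ) = 1 ⊓ 1
    rw [inf_idem]
  · intro x y
    show (1 : Aut Λ) = 1 ⊔ 1
    rw [sup_idem]

end Hom

/-- Two groups acting on one chain so that `p` acts below `q`. -/
theorem exists_pair {P Q : Type} [Group P] [Lattice P] [MulLeftMono P] [MulRightMono P]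
    [Group Q] [Lattice Q] [MulLeftMono Q] [MulRightMono Q]
    {ΩP ΩQ : Type} [LinearOrder ΩP] [LinearOrder ΩQ]
    (ρ : P →* Aut ΩP) (τ : Q →* Aut ΩQ) (hρ : IsLEmb ρ) (hτ : IsLEmb τ)
    {p : P} {q : Q} (hp : 1 < p) (hq : 1 < q) :
    ∃ (α : P →* Aut (ΩQ ×ₗ ΩP)) (β : Q →* Aut (ΩQ ×ₗ ΩP)), IsLEmb α ∧ IsLEmb β ∧ α p ≤ β q := by
  classical
  have hτq : 1 ≤ τ q := by rw [← map_one τ]; exact hτ.mono hq.le
  obtain ⟨i0, hi0⟩ : ∃ i, τ q i ≠ i := by
    by_contra h
    push Not at h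
    apply hq.ne
    apply hτ.1
    rw [map_one]
    exact (Aut.ext h).symm
  have hne : Nonempty ΩP := by
    by_contra h
    rw [not_nonempty_iff] at h
    apply hp.ne
    apply hρ.1
    apply Aut.ext
    intro x
    exact h.elim x
  refine ⟨blkHom (fun i => if τ q i = i then 1 else ρ), topHom τ, ?_, ?_, ?_⟩
  · have h1 : IsLHom (blkHom (fun i => if τ q i = i then (1 : P →* Aut ΩP) else ρ)) := by
      apply blkHom_isLHom
      intro i
      by_cases h : τ q i = i
      · rw [if_pos h]; exact one_isLHom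
      · rw [if_neg h]; exact hρ.2
    refine ⟨?_, h1.1, h1.2⟩
    rw [injective_iff_map_eq_one]
    intro x hx
    rw [blkHom_apply] at hx
    have h2 := blk_inj hx i0
    rw [if_neg hi0] at h2
    apply hρ.1
    rw [h2, map_one]
  · have h1 : IsLHom (topHom τ : Q →* Aut (ΩQ ×ₗ ΩP)) := topHom_isLHom hτ.2
    refine ⟨?_, h1.1, h1.2⟩
    rw [injective_iff_map_eq_one]
    intro x hx
    have h2 := top_inj hx
    apply hτ.1
    rw [h2, map_one]
  · rw [blkHom_apply, topHom_apply]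
    apply lex_le
    intro i l
    rw [blk_apply, top_apply]
    by_cases h : τ q i = i
    · rw [if_pos h, h]
      exact le_rfl
    · have h2 : i < τ q i := lt_of_le_of_ne (hτq i) (Ne.symm h)
      rw [Prod.Lex.le_iff]
      exact Or.inl h2

end Pool.Agent.Y42.AB
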