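import Pool.Agent.Helper539.LGAut

/-! Two obstructions to amalgamation of lattice-ordered groups, in general form. -/

namespace Pool.Agent.Y42.AB

open Pool.Agent.Helper539.LG

variable {D : Type*} [Group D] [Lattice D] [MulLeftMono D] [MulRightMono D]

/-- Obstruction over cardinal products (inequality version). -/
theorem obst_sum {a b c t w w' : D} (hc : 1 ≤ c) (hc1 : c ≠ 1) (hca : c ≤ a)
    (ht : 1 ≤ t) (htc : t ⊓ c = 1) (h1 : t * b * t⁻¹ ≤ a) (h2 : t * b * t⁻¹ ≤ t⁻¹ * b * t)
    (hw : 1 ≤ w) (hw' : 1 ≤ w') (hwb : w ⊓ b = 1) (hw'a : w' ⊓ a = 1)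
    (hab : a ⊓ b = 1) (h3 : a * (w * w') ≤ (w * w') * b) : False := by
  obtain ⟨R, hle, htr, -, hr, hp, hRc⟩ := exists_preorder hc hc1
  have hRa : ¬ R a 1 := fun h => hRc (htr _ _ _ (hle _ _ hca) h)
  have hRt : R t 1 := by
    rcases hp t c htc 1 with h | h
    · rwa [one_mul] at h
    · rw [one_mul] at h; exact absurd h hRc
  have ht1 : R 1 t⁻¹ := by
    have := hr _ _ t⁻¹ hRt
    rwa [mul_inv_cancel, one_mul] at this
  set u : D := w * w' * t⁻¹ with hu
  set v : D := u * t⁻¹ with hv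
  have hua : a * u ≤ u * a := by
    calc a * u = a * (w * w') * t⁻¹ := by rw [hu]; group
      _ ≤ (w * w') * b * t⁻¹ := mulRR h3 _
      _ = u * (t * b * t⁻¹) := by rw [hu]; group
      _ ≤ u * a := mulLL h1 u
  have hvb : a * v ≤ v * b := by
    calc a * v = a * (w * w') * (t⁻¹ * t⁻¹) := by rw [hv, hu]; group
      _ ≤ (w * w') * b * (t⁻¹ * t⁻¹) := mulRR h3 _
      _ = u * (t * b * t⁻¹) * t⁻¹ := by rw [hu]; group
      _ ≤ u * (t⁻¹ * b * t) * t⁻¹ := mulRR (mulLL h2 u) _
      _ = v * b := by rw [hv]; group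
  have hkey : ∀ k, ¬ R (a * k) k := by
    intro k h
    have := hr _ _ k⁻¹ h
    rw [mul_inv_cancel, mul_inv_cancel_right] at this
    exact hRa this
  have hRua : ¬ R (u * a) u := by
    intro h
    apply hkey u
    exact htr _ _ _ (hle _ _ hua) h
  have hRvw : R (v * w) v := by
    rcases hp w b hwb v with h | h
    · exact h
    · exact absurd (htr _ _ _ (hle _ _ hvb) h) (hkey v)
  have hRuw' : R (u * w') u := by
    rcases hp w' a hw'a u with h | h
    · exact h
    · exact absurd h hRua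
  have hww : (1 : D) ≤ w * w' := one_le_mul hw hw'
  have h1v : R 1 v := by
    have e1 : R t⁻¹ (t⁻¹ * t⁻¹) := by
      have := hr _ _ t⁻¹ ht1
      rwa [one_mul] at this
    have e2 : t⁻¹ * t⁻¹ ≤ v := by
      have := mulRR (mulRR hww t⁻¹) t⁻¹
      rw [one_mul] at this
      exact this
    exact htr _ _ _ ht1 (htr _ _ _ e1 (hle _ _ e2))
  have hRwv : R w v := by
    have := hr _ _ w h1v
    rw [one_mul] at this
    exact htr _ _ _ this hRvw
  have htinv : t⁻¹ ≤ 1 := inv_le_one'.mpr ht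
  have hvu : v ≤ u := by
    have := mulLL htinv u
    rwa [mul_one] at this
  have hRwu : R w u := htr _ _ _ hRwv (hle _ _ hvu)
  have huww : u ≤ w * w' := by
    have := mulLL htinv (w * w')
    rwa [mul_one] at this
  have hRwwu : R (w * w') u := htr _ _ _ (hr _ _ w' hRwu) hRuw'
  have hRwwa : R (w * w' * a) (w * w') := by
    rcases hp a b hab (w * w') with h | h
    · exact h
    · exact absurd (htr _ _ _ (hle _ _ h3) h) (hkey _)
  apply hRua
  have e3 : R (u * a) (w * w' * a) := hle _ _ (mulRR huww a)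
  exact htr _ _ _ e3 (htr _ _ _ hRwwa hRwwu)

/-- Obstruction over lexicographic extensions. -/
theorem obst_lex {g g2 v b s t : D} {k : ℕ} (hv : 1 ≤ v) (hv1 : v ≠ 1) (hg2 : 1 ≤ g2)
    (hvg2 : v ⊓ g2 = 1) (hvb : v ⊓ b = 1) (hg : g = v * g2)
    (hs : s ≤ g ^ k) (hs' : 1 ≤ g ^ k * s) (ht : t ≤ g ^ k) (ht' : 1 ≤ g ^ k * t)
    (h : g ≤ ((t * b * t⁻¹) * (s * b * s⁻¹)) * ((t * b * t⁻¹) * (s * b * s⁻¹))) : False := by
  obtain ⟨R, hle, htr, -, hr, hp, hRv⟩ := exists_preorder hv hv1
  have hcomm : Commute v g2 := commute_of_inf hvg2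
  have hRg2 : R g2 1 := by
    rcases hp v g2 hvg2 1 with h | h
    · rw [one_mul] at h; exact absurd h hRv
    · rwa [one_mul] at h
  have hrefl : ∀ x, R x x := fun x => hle _ _ le_rfl
  have hRg2k : ∀ n : ℕ, R (g2 ^ n) 1 := by
    intro n
    induction n with
    | zero => rw [pow_zero]; exact hrefl 1
    | succ n ih =>
      have := hr _ _ g2 ih
      rw [one_mul, ← pow_succ] at this
      exact htr _ _ _ this hRg2
  have hgk : g ^ k = g2 ^ k * v ^ k := by rw [hg, hcomm.mul_pow, (hcomm.pow_pow k k).eq]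
  have hRgk : R (g ^ k) (v ^ k) := by
    have := hr _ _ (v ^ k) (hRg2k k)
    rwa [one_mul, ← hgk] at this
  -- conjugates of `b` by bounded elements fix the base point
  have main : ∀ s : D, s ≤ g ^ k → 1 ≤ g ^ k * s → R (s * b * s⁻¹) 1 := by
    intro s hs hs'
    have hsb : R (s * b) s := by
      rcases hp v b hvb s with h | h
      · exfalso
        -- `v` fixes the point of `s`
        have hsm : ∀ m : ℕ, R (s * v ^ m) s := by
          intro m
          induction m with
          | zero => rw [pow_zero, mul_one]; exact hrefl s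
          | succ m ih =>
            have := hr _ _ v ih
            rw [mul_assoc, ← pow_succ] at this
            exact htr _ _ _ this h
        have h1 : R s (v ^ k) := htr _ _ _ (hle _ _ hs) hRgk
        -- `v ^ (-k) ≤ s`
        have h3 : R (v ^ k)⁻¹ s := by
          have e1 : R 1 (g2 ^ k)⁻¹ := by
            have := hr _ _ (g2 ^ k)⁻¹ (hRg2k k)
            rwa [mul_inv_cancel, one_mul] at this
          have e2 : R (v ^ k)⁻¹ ((g2 ^ k)⁻¹ * (v ^ k)⁻¹) := by
            have := hr _ _ (v ^ k)⁻¹ e1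
            rwa [one_mul] at this
          have e3 : (g2 ^ k)⁻¹ * (v ^ k)⁻¹ ≤ s := by
            rw [← mul_inv_rev, ← (hcomm.pow_pow k k).eq.symm, ← hgk] at *
            have := mulLL hs' (g ^ k)⁻¹
            rwa [mul_one, inv_mul_cancel_left] at this
          exact htr _ _ _ e2 (hle _ _ e3)
        have h4 := htr _ _ _ (hr _ _ (v ^ (2 * k + 1)) h3) (htr _ _ _ (hsm (2 * k + 1)) h1)
        have h5 : (v ^ k)⁻¹ * v ^ (2 * k + 1) = v * v ^ k := by
          rw [show 2 * k + 1 = k + (1 + k) by ring, pow_add, inv_mul_cancel_left, pow_add, pow_one]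
        rw [h5] at h4
        have h6 := hr _ _ (v ^ k)⁻¹ h4
        rw [mul_inv_cancel_right, mul_inv_cancel] at h6
        exact hRv h6
      · exact h
    have := hr _ _ s⁻¹ hsb
    rwa [mul_inv_cancel] at this
  have hS := main s hs hs'
  have hT := main t ht ht'
  have hTS : R ((t * b * t⁻¹) * (s * b * s⁻¹)) 1 := by
    have := hr _ _ (s * b * s⁻¹) hT
    rw [one_mul] at this
    exact htr _ _ _ this hS
  have hfin : R (((t * b * t⁻¹) * (s * b * s⁻¹)) * ((t * b * t⁻¹) * (s * b * s⁻¹))) 1 := by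
    have := hr _ _ ((t * b * t⁻¹) * (s * b * s⁻¹)) hTS
    rw [one_mul] at this
    exact htr _ _ _ this hTS
  have hvg : v ≤ g := by rw [hg]; exact le_mul_of_one_le_right' hg2
  exact hRv (htr _ _ _ (hle _ _ (hvg.trans h)) hfin)

end Pool.Agent.Y42.AB
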