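import Mathlib

/-! Statements of the parts (amalgamation bases of lattice-ordered groups). -/

namespace Pool.Agent.Y42.AB

/-- Expanding the bumps of `b` on the rationals by automorphisms bounded by powers of `g`. -/
def S_EXPAND : Prop :=
  ∀ (g b : ℚ ≃o ℚ), (∀ x, x < g x) → (∀ x, x ≤ b x) → (∀ x, b x < g x) →
    (∀ x, ∃ y, x ≤ y ∧ y < g x ∧ y < b y) →
    ∃ (s t : ℚ ≃o ℚ) (k : ℕ),
      (∀ x, s x ≤ (g ^ k) x) ∧ (∀ x, x ≤ (g ^ k) (s x)) ∧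
      (∀ x, t x ≤ (g ^ k) x) ∧ (∀ x, x ≤ (g ^ k) (t x)) ∧
      ∀ x, g x ≤ (((t * b * t⁻¹) * (s * b * s⁻¹)) * ((t * b * t⁻¹) * (s * b * s⁻¹))) x

/-- A countable lexicographic extension acts on the rationals with `V` spread everywhere. -/
def S_CHAIN : Prop :=
  ∀ (A : Type) [Group A] [Lattice A] [MulLeftMono A] [MulRightMono A] [Countable A]
    (V : Subgroup A) [V.Normal], V ≠ ⊥ →
    (∀ x, x ∉ V → (∀ v ∈ V, v < x) ∨ (∀ v ∈ V, x < v)) →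
    ∃ ρ : A →* (ℚ ≃o ℚ), Function.Injective ρ ∧
      (∀ (x y : A) (q : ℚ), ρ (x ⊔ y) q = max (ρ x q) (ρ y q)) ∧
      (∀ (x y : A) (q : ℚ), ρ (x ⊓ y) q = min (ρ x q) (ρ y q)) ∧
      (∀ g : A, g ∉ V → 1 < g → ∀ q, q < ρ g q) ∧
      (∀ g : A, g ∉ V → 1 < g → ∀ b ∈ V, 1 < b →
        ∀ q, ∃ r, q ≤ r ∧ r < ρ g (ρ g q) ∧ r < ρ b r)

/-- Every lattice-ordered group acts faithfully on a chain (Holland). -/
def S_HOL : Prop :=
  ∀ (A : Type) [Group A] [Lattice A] [MulLeftMono A] [MulRightMono A],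
    ∃ (Ω : Type) (_ : LinearOrder Ω) (ρ : A →* (Ω ≃o Ω)), Function.Injective ρ ∧
      (∀ (x y : A) (q : Ω), ρ (x ⊔ y) q = max (ρ x q) (ρ y q)) ∧
      (∀ (x y : A) (q : Ω), ρ (x ⊓ y) q = min (ρ x q) (ρ y q))

end Pool.Agent.Y42.AB
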