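import Pool.Agent.Y42.AB.Blk
import Pool.Agent.Y42.AB.Obst
import Pool.Agent.Y42.AB.Stm

/-! Cardinal products of nontrivial ℓ-groups are not amalgamation bases. -/

namespace Pool.Agent.Y42.AB

open Pool.Agent.Helper539.LG

universe u

/-- Failure of amalgamation over `A`. -/
def NoBase (A : Type) [Group A] [Lattice A] : Prop :=
  ∃ (B : Type) (_ : Group B) (_ : Lattice B) (_ : MulLeftMono B) (_ : MulRightMono B)
    (C : Type) (_ : Group C) (_ : Lattice C) (_ : MulLeftMono C) (_ : MulRightMono C)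
    (f : A →* B) (g : A →* C), IsLEmb f ∧ IsLEmb g ∧
    ∀ (D : Type u) [Group D] [Lattice D] [MulLeftMono D] [MulRightMono D]
      (f' : B →* D) (g' : C →* D), IsLEmb f' → IsLEmb g' → f'.comp f ≠ g'.comp g

theorem exists_one_lt (A : Type) [Group A] [Lattice A] [MulLeftMono A] [MulRightMono A]
    [Nontrivial A] : ∃ a : A, 1 < a := by
  obtain ⟨x, hx⟩ := exists_ne (1 : A)
  by_contra h
  push Not at h
  have h1 : ∀ y : A, 1 ≤ y → y = 1 := fun y hy => by
    by_contra hne
    exact h y (lt_of_le_of_ne hy (Ne.symm hne))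
  have h2 : x ⊔ 1 = 1 := h1 _ le_sup_right
  have h3 : x⁻¹ ⊔ 1 = 1 := h1 _ le_sup_right
  have h4 : x ≤ 1 := by rw [← h2]; exact le_sup_left
  have h5 : x⁻¹ ≤ 1 := by rw [← h3]; exact le_sup_left
  have h6 : 1 ≤ x := by rwa [inv_le_one'] at h5
  exact hx (le_antisymm h4 h6)

theorem exists_aut_emb (HOL : S_HOL) (A : Type) [Group A] [Lattice A] [MulLeftMono A]
    [MulRightMono A] : ∃ (Ω : Type) (_ : LinearOrder Ω) (ρ : A →* Aut Ω), IsLEmb ρ := by
  obtain ⟨Ω, i, ρ, h1, h2, h3⟩ := HOL A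
  refine ⟨Ω, i, ρ, h1, ?_, ?_⟩
  · intro x y
    apply Aut.ext
    intro q
    exact h3 x y q
  · intro x y
    apply Aut.ext
    intro q
    exact h2 x y q

section Sum

variable {A₁ A₂ : Type} [Group A₁] [Lattice A₁] [MulLeftMono A₁] [MulRightMono A₁]
  [Group A₂] [Lattice A₂] [MulLeftMono A₂] [MulRightMono A₂]

omit [MulLeftMono A₁] [MulRightMono A₁] [MulLeftMono A₂] [MulRightMono A₂] in
theorem comp_fst_isLHom {B : Type} [Group B] [Lattice B] {φ : A₁ →* B} (h : IsLEmb φ) :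
    IsLHom (φ.comp (MonoidHom.fst A₁ A₂)) := by
  constructor
  · rintro ⟨x, y⟩ ⟨x', y'⟩
    exact h.2.1 x x'
  · rintro ⟨x, y⟩ ⟨x', y'⟩
    exact h.2.2 x x'

omit [MulLeftMono A₁] [MulRightMono A₁] [MulLeftMono A₂] [MulRightMono A₂] in
theorem comp_snd_isLHom {B : Type} [Group B] [Lattice B] {φ : A₂ →* B} (h : IsLEmb φ) :
    IsLHom (φ.comp (MonoidHom.snd A₁ A₂)) := by
  constructor
  · rintro ⟨x, y⟩ ⟨x', y'⟩
    exact h.2.1 y y'
  · rintro ⟨x, y⟩ ⟨x', y'⟩
    exact h.2.2 y y'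

/-- The blocks of the first embedding. -/
noncomputable def phB {Λ : Type} [LinearOrder Λ] (α : A₁ →* Aut Λ) (β : A₂ →* Aut Λ) (r : ℝ) :
    A₁ × A₂ →* Aut Λ :=
  open Classical in
  if r = 3 then α.comp (MonoidHom.fst A₁ A₂) else
  if r = 0 then β.comp (MonoidHom.snd A₁ A₂) else 1

/-- The blocks of the second embedding. -/
def phC {Λ : Type} [LinearOrder Λ] (α : A₂ →* Aut Λ) (β : A₁ →* Aut Λ) (n : ℤ) :
    A₁ × A₂ →* Aut Λ :=
  if Even n then β.comp (MonoidHom.fst A₁ A₂) else α.comp (MonoidHom.snd A₁ A₂)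

theorem phB_isLEmb {Λ : Type} [LinearOrder Λ] {α : A₁ →* Aut Λ} {β : A₂ →* Aut Λ}
    (hα : IsLEmb α) (hβ : IsLEmb β) : IsLEmb (blkHom (phB α β)) := by
  have h1 : IsLHom (blkHom (phB α β)) := by
    apply blkHom_isLHom
    intro r
    unfold phB
    split_ifs
    · exact comp_fst_isLHom hα
    · exact comp_snd_isLHom hβ
    · exact one_isLHom
  refine ⟨?_, h1.1, h1.2⟩
  rw [injective_iff_map_eq_one]
  rintro ⟨x, y⟩ hx
  rw [blkHom_apply] at hx
  have e1 := blk_inj hx 3
  have e2 := blk_inj hx 0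
  rw [phB, if_pos rfl] at e1
  rw [phB, if_neg (by norm_num), if_pos rfl] at e2
  have e3 : x = 1 := hα.1 (by rw [map_one]; exact e1)
  have e4 : y = 1 := hβ.1 (by rw [map_one]; exact e2)
  rw [e3, e4]
  rfl

/-- The translation of the integers. -/
def trZ : Aut ℤ := mkAut (fun n => n + 1) (fun n => n - 1) (by intro x; ring) (by intro x; ring)
  (by intro x y h; dsimp only; omega)

theorem trZ_apply (n : ℤ) : trZ n = n + 1 := rfl

theorem trZ_inv_apply (n : ℤ) : trZ⁻¹ n = n - 1 := rfl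

theorem one_le_trZ : 1 ≤ trZ := by
  rw [one_le_iff]
  intro n
  rw [trZ_apply]
  omega

theorem sum_noBase (HOL : S_HOL) [Nontrivial A₁] [Nontrivial A₂] : NoBase.{u} (A₁ × A₂) := by
  classical
  obtain ⟨a, ha⟩ := exists_one_lt A₁
  obtain ⟨b, hb⟩ := exists_one_lt A₂
  obtain ⟨Ω₁, i₁, ρ, hρ⟩ := exists_aut_emb HOL A₁
  obtain ⟨Ω₂, i₂, τ, hτ⟩ := exists_aut_emb HOL A₂
  obtain ⟨α, β, hα, hβ, hab⟩ := exists_pair ρ τ hρ hτ ha hb
  obtain ⟨α', β', hα', hβ', hab'⟩ := exists_pair τ ρ hτ hρ hb ha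
  have haβ : 1 ≤ β' a := by rw [← map_one β']; exact hβ'.mono ha.le
  have hbα : 1 ≤ α' b := by rw [← map_one α']; exact hα'.mono hb.le
  have haα : 1 ≤ α a := by rw [← map_one α]; exact hα.mono ha.le
  have hbβ : 1 ≤ β b := by rw [← map_one β]; exact hβ.mono hb.le
  set f : A₁ × A₂ →* Aut (ℝ ×ₗ (Ω₂ ×ₗ Ω₁)) := blkHom (phB α β) with hf
  have hfe : IsLEmb f := phB_isLEmb hα hβ
  set g : A₁ × A₂ →* Aut (Ω₁ ×ₗ Ω₂) × Aut (ℤ ×ₗ (Ω₁ ×ₗ Ω₂)) :=
    (β'.comp (MonoidHom.fst A₁ A₂)).prod (blkHom (phC α' β')) with hg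
  have hgl2 : IsLHom (blkHom (phC α' β')) := by
    apply blkHom_isLHom
    intro n
    unfold phC
    split_ifs
    · exact comp_fst_isLHom hβ'
    · exact comp_snd_isLHom hα'
  have hgl1 : IsLHom (β'.comp (MonoidHom.fst A₁ A₂)) := comp_fst_isLHom hβ'
  have hge : IsLEmb g := by
    refine ⟨?_, ?_, ?_⟩
    · rw [injective_iff_map_eq_one]
      rintro ⟨x, y⟩ hx
      have e0 : β' x = 1 := congrArg Prod.fst hx
      have e1 : blk (fun n => phC α' β' n (x, y)) = 1 := congrArg Prod.snd hx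
      have e2 := blk_inj e1 1
      rw [phC, if_neg (by decide)] at e2
      have e3 : x = 1 := hβ'.1 (by rw [map_one]; exact e0)
      have e4 : y = 1 := hα'.1 (by rw [map_one]; exact e2)
      rw [e3, e4]
      rfl
    · intro x y
      apply Prod.ext
      · exact hgl1.1 x y
      · exact hgl2.1 x y
    · intro x y
      apply Prod.ext
      · exact hgl1.2 x y
      · exact hgl2.2 x y
  -- the elements
  have hga : g (a, 1) = (β' a, blk (fun n => if Even n then β' a else 1)) := by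
    apply Prod.ext
    · rfl
    · show blk (fun n => phC α' β' n (a, 1)) = blk (fun n => if Even n then β' a else 1)
      congr 1
      funext n
      unfold phC
      split_ifs
      · rfl
      · show α' 1 = 1
        rw [map_one]
  have hgb : g (1, b) = (1, blk (fun n => if Even n then 1 else α' b)) := by
    apply Prod.ext
    · show β' 1 = 1
      rw [map_one]
    · show blk (fun n => phC α' β' n (1, b)) = blk (fun n => if Even n then 1 else α' b)
      congr 1
      funext n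
      unfold phC
      split_ifs
      · show β' 1 = 1
        rw [map_one]
      · rfl
  have hfa : f (a, 1) = blk (fun r : ℝ => if r = 3 then α a else 1) := by
    show blk (fun r => phB α β r (a, 1)) = _
    congr 1
    funext r
    unfold phB
    split_ifs
    · rfl
    · show β 1 = 1
      rw [map_one]
    · rfl
  have hfb : f (1, b) = blk (fun r : ℝ => if r = 0 then β b else 1) := by
    show blk (fun r => phB α β r (1, b)) = _
    congr 1
    funext r
    unfold phB
    by_cases h3 : r = 3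
    · rw [if_pos h3, if_neg (by rw [h3]; norm_num)]
      show α 1 = 1
      rw [map_one]
    · rw [if_neg h3]
      split_ifs
      · rfl
      · rfl
  refine ⟨_, inferInstance, inferInstance, inferInstance, inferInstance,
    _, inferInstance, inferInstance, inferInstance, inferInstance, f, g, hfe, hge, ?_⟩
  intro D _ _ _ _ f' g' hf' hg' h
  have hx : ∀ x, f' (f x) = g' (g x) := fun x => congrArg (fun φ => φ x) h
  set cC : Aut (Ω₁ ×ₗ Ω₂) × Aut (ℤ ×ₗ (Ω₁ ×ₗ Ω₂)) := (β' a, 1) with hcC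
  set tC : Aut (Ω₁ ×ₗ Ω₂) × Aut (ℤ ×ₗ (Ω₁ ×ₗ Ω₂)) := (1, top trZ) with htC
  have hconj : ∀ σ : Aut ℤ, (∀ n, Even (σ⁻¹ n) ↔ ¬ Even n) →
      (1, top σ) * g (1, b) * (1, top σ)⁻¹ =
        ((1, blk (fun n => if Even n then α' b else 1)) :
          Aut (Ω₁ ×ₗ Ω₂) × Aut (ℤ ×ₗ (Ω₁ ×ₗ Ω₂))) := by
    intro σ hσ
    rw [hgb]
    apply Prod.ext
    · show (1 : Aut (Ω₁ ×ₗ Ω₂)) * 1 * 1⁻¹ = 1
      simp
    · show top σ * blk (fun n => if Even n then 1 else α' b) * (top σ)⁻¹ =
        blk (fun n => if Even n then α' b else 1)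
      rw [top_conj]
      congr 1
      funext n
      by_cases hn : Even n
      · rw [if_pos hn, if_neg (by rw [hσ]; exact fun h => h hn)]
      · rw [if_neg hn, if_pos ((hσ n).mpr hn)]
  have ht1 : tC * g (1, b) * tC⁻¹ = (1, blk (fun n => if Even n then α' b else 1)) := by
    apply hconj
    intro n
    rw [trZ_inv_apply, Int.even_sub_one]
  have ht2 : tC⁻¹ * g (1, b) * tC = (1, blk (fun n => if Even n then α' b else 1)) := by
    have h1 := hconj trZ⁻¹ (by
      intro n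
      rw [inv_inv, trZ_apply, Int.even_add_one])
    have h2 : ((1, top trZ⁻¹) : Aut (Ω₁ ×ₗ Ω₂) × Aut (ℤ ×ₗ (Ω₁ ×ₗ Ω₂))) = tC⁻¹ := by
      rw [htC, top_inv]
      apply Prod.ext
      · show (1 : Aut (Ω₁ ×ₗ Ω₂)) = 1⁻¹
        rw [inv_one]
      · rfl
    rw [h2, inv_inv] at h1
    exact h1
  refine obst_sum (a := g' (g (a, 1))) (b := g' (g (1, b))) (c := g' cC) (t := g' tC)
    (w := f' (top w2)) (w' := f' (top w1)) ?_ ?_ ?_ ?_ ?_ ?_ ?_ ?_ ?_ ?_ ?_ ?_ ?_
  · rw [← map_one g']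
    exact hg'.mono ⟨haβ, le_rfl⟩
  · rw [← map_one g']
    intro e
    have e1 := congrArg Prod.fst (hg'.1 e)
    change β' a = 1 at e1
    rw [← map_one β'] at e1
    exact ha.ne (hβ'.1 e1).symm
  · apply hg'.mono
    rw [hga]
    refine ⟨le_rfl, ?_⟩
    show 1 ≤ blk _
    rw [← blk_one]
    apply blk_le
    intro n
    split_ifs
    · exact haβ
    · exact le_rfl
  · rw [← map_one g']
    exact hg'.mono ⟨le_rfl, one_le_top one_le_trZ⟩
  · rw [← hg'.2.1, ← map_one g']
    congr 1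
    apply Prod.ext
    · show (1 : Aut (Ω₁ ×ₗ Ω₂)) ⊓ β' a = 1
      exact inf_eq_left.mpr haβ
    · show top trZ ⊓ (1 : Aut (ℤ ×ₗ (Ω₁ ×ₗ Ω₂))) = 1
      exact inf_eq_right.mpr (one_le_top one_le_trZ)
  · rw [← map_inv, ← map_mul, ← map_mul, ht1]
    apply hg'.mono
    rw [hga]
    refine ⟨haβ, ?_⟩
    apply blk_le
    intro n
    split_ifs
    · exact hab'
    · exact le_rfl
  · rw [← map_inv, ← map_mul, ← map_mul, ← map_mul, ← map_mul, ht1, ht2]
  · rw [← map_one f']
    exact hf'.mono (one_le_top one_le_w2)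
  · rw [← map_one f']
    exact hf'.mono (one_le_top one_le_w1)
  · rw [← hx, ← hf'.2.1, ← map_one f', hfb]
    congr 1
    apply lex_ext
    intro r l
    rw [Aut.inf_apply, Aut.one_apply, top_apply, blk_apply]
    by_cases h0 : r = 0
    · have h1 : w2 r = r := by rw [h0, w2_apply, if_pos (by norm_num)]
      rw [h1, if_pos h0]
      exact min_eq_left (toLex_le r (hbβ l))
    · rw [if_neg h0]
      exact min_eq_right (toLex_le_fst (one_le_iff.mp one_le_w2 r) l)
  · rw [← hx, ← hf'.2.1, ← map_one f', hfa]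
    congr 1
    apply lex_ext
    intro r l
    rw [Aut.inf_apply, Aut.one_apply, top_apply, blk_apply]
    by_cases h0 : r = 3
    · have h1 : w1 r = r := by rw [h0, w1_apply]; norm_num
      rw [h1, if_pos h0]
      exact min_eq_left (toLex_le r (haα l))
    · rw [if_neg h0]
      exact min_eq_right (toLex_le_fst (one_le_iff.mp one_le_w1 r) l)
  · rw [← hg'.2.1, ← hge.2.1, ← map_one g', ← map_one g]
    congr 2
    apply Prod.ext
    · exact inf_eq_right.mpr ha.le
    · exact inf_eq_left.mpr hb.le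
  · rw [← hx, ← hx, ← map_mul, ← map_mul, ← map_mul]
    apply hf'.mono
    have h1 : f (a, 1) ≤ top (w2 * w1) * f (1, b) * (top (w2 * w1))⁻¹ := by
      rw [hfa, hfb, top_conj]
      apply blk_le
      intro r
      by_cases h3 : r = 3
      · have h4 : (w2 * w1)⁻¹ (3 : ℝ) = 0 := by
          have h5 : (w2 * w1) 0 = (3 : ℝ) := by
            rw [Aut.mul_apply, w1_apply, w2_apply]; norm_num
          rw [← h5, Aut.inv_apply]
        rw [if_pos h3, h3, if_pos h4]
        exact hab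
      · rw [if_neg h3]
        split_ifs
        · exact hbβ
        · exact le_rfl
    rw [← top_mul]
    have h2 := mulRR h1 (top (w2 * w1))
    rwa [inv_mul_cancel_right] at h2

end Sum

end Pool.Agent.Y42.AB
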