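import Pool.Agent.Y42.AB.Stm

/-! The construction of helper908 (module Pool.Agent.Y908.AB.EXPAND) with the exponent stated. -/

set_option autoImplicit false

namespace Pool.Agent.Y42.AB.E6

open Pool.Agent.Y42.AB

/-! ### affine maps -/

/-- the affine map which sends `a` to `c` and `b` to `d` -/
def aff (a b c d x : ℚ) : ℚ := c + (x - a) * (d - c) / (b - a)

theorem aff_left (a b c d : ℚ) : aff a b c d a = c := by
  unfold aff
  rw [sub_self, zero_mul, zero_div, add_zero]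

theorem aff_right {a b : ℚ} (c d : ℚ) (h : a < b) : aff a b c d b = d := by
  unfold aff
  have : b - a ≠ 0 := (sub_pos.2 h).ne'
  rw [mul_comm, mul_div_assoc, div_self this, mul_one, add_sub_cancel]

theorem aff_lt {a b c d x y : ℚ} (h : a < b) (h' : c < d) (hxy : x < y) :
    aff a b c d x < aff a b c d y := by
  unfold aff
  have h1 : 0 < b - a := sub_pos.2 h
  have h2 : 0 < d - c := sub_pos.2 h'
  have h3 : (x - a) * (d - c) < (y - a) * (d - c) := mul_lt_mul_of_pos_right (by linarith) h2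
  have h4 := div_lt_div_of_pos_right h3 h1
  linarith

theorem aff_lt_right {a b c d x : ℚ} (h : a < b) (h' : c < d) (hx : x < b) :
    aff a b c d x < d := by
  have := aff_lt h h' hx
  rwa [aff_right c d h] at this

theorem left_le_aff {a b c d x : ℚ} (h : a < b) (h' : c < d) (hx : a ≤ x) :
    c ≤ aff a b c d x := by
  rcases hx.eq_or_lt with rfl | hx
  · rw [aff_left]
  · have := aff_lt h h' hx
    rw [aff_left] at this
    exact this.le

theorem aff_aff {a b c d : ℚ} (h : a < b) (h' : c < d) (y : ℚ) :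
    aff a b c d (aff c d a b y) = y := by
  unfold aff
  have h1 : b - a ≠ 0 := (sub_pos.2 h).ne'
  have h2 : d - c ≠ 0 := (sub_pos.2 h').ne'
  field_simp
  ring

/-! ### powers -/

section
variable (g : ℚ ≃o ℚ)

theorem pow_zero_apply (x : ℚ) : (g ^ 0) x = x := by rw [pow_zero]; rfl

theorem pow_succ_apply' (n : ℕ) (x : ℚ) : (g ^ (n + 1)) x = g ((g ^ n) x) := by
  rw [pow_succ']; rfl

theorem pow_add_apply (m n : ℕ) (x : ℚ) : (g ^ (m + n)) x = (g ^ m) ((g ^ n) x) := by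
  rw [pow_add]; rfl

theorem zpow_add_apply (m n : ℤ) (x : ℚ) : (g ^ (m + n)) x = (g ^ m) ((g ^ n) x) := by
  rw [zpow_add]; rfl

theorem zpow_nat_apply (n : ℕ) (x : ℚ) : (g ^ (n : ℤ)) x = (g ^ n) x := by
  rw [zpow_natCast]

variable {g} (hg : ∀ x, x < g x)
include hg

theorem le_pow (n : ℕ) (x : ℚ) : x ≤ (g ^ n) x := by
  induction n with
  | zero => rw [pow_zero_apply]
  | succ n ih =>
    rw [pow_succ_apply']
    exact ih.trans (hg _).le

theorem pow_mono {m n : ℕ} (h : m ≤ n) (x : ℚ) : (g ^ m) x ≤ (g ^ n) x := by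
  obtain ⟨k, rfl⟩ := Nat.exists_eq_add_of_le h
  rw [add_comm, pow_add_apply]
  exact le_pow hg _ _

theorem zpow_strictMono (x : ℚ) : StrictMono fun j : ℤ => (g ^ j) x := by
  refine strictMono_int_of_lt_succ fun j => ?_
  show (g ^ j) x < (g ^ (j + 1)) x
  rw [add_comm, zpow_add_apply, zpow_one]
  exact hg _

end

/-! ### gluing -/

section glue

variable (g : ℚ ≃o ℚ) (Y c A C : ℚ → ℤ → ℚ) (r : ℚ → ℚ) (i : ℚ → ℤ)

/-- the glued map -/
def sg (β : ℚ) : ℚ :=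
  if β < c (r β) (i β) then
    aff (Y (r β) (i β)) (c (r β) (i β)) (A (r β) (i β)) (C (r β) (i β)) β
  else aff (c (r β) (i β)) (Y (r β) (i β + 1)) (C (r β) (i β)) (A (r β) (i β + 1)) β

theorem glue (K : ℕ) (hg : ∀ x, x < g x)
    (H1 : ∀ β, Y (r β) (i β) ≤ β ∧ β < Y (r β) (i β + 1))
    (H2 : ∀ β j γ, Y (r β) j ≤ γ → γ < Y (r β) (j + 1) → r γ = r β ∧ i γ = j)
    (H3 : ∀ ρ j, Y ρ j < c ρ j ∧ c ρ j < Y ρ (j + 1))
    (H4 : ∀ ρ j, A ρ j < C ρ j ∧ C ρ j < A ρ (j + 1))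
    (H5 : ∀ β, A (r β) (i β + 1) ≤ (g ^ K) β ∧ β ≤ (g ^ K) (A (r β) (i β)))
    (H6 : ∀ β γ, r β ≠ r γ → β < γ → ∀ n, (g ^ n) β < γ)
    (H7 : ∀ γ, ∃ j, A (r γ) j ≤ γ ∧ γ < A (r γ) (j + 1)) :
    ∃ σ : ℚ ≃o ℚ, (∀ β j, σ (Y (r β) j) = A (r β) j ∧ σ (c (r β) j) = C (r β) j) ∧
      ∀ β, σ β ≤ (g ^ K) β ∧ β ≤ (g ^ K) (σ β) := by
  set f : ℚ → ℚ := sg Y c A C r i with hf
  have hval : ∀ β j γ, Y (r β) j ≤ γ → γ < Y (r β) (j + 1) → f γ =
      if γ < c (r β) j then aff (Y (r β) j) (c (r β) j) (A (r β) j) (C (r β) j) γ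
      else aff (c (r β) j) (Y (r β) (j + 1)) (C (r β) j) (A (r β) (j + 1)) γ := by
    intro β j γ h1 h2
    obtain ⟨h3, h4⟩ := H2 β j γ h1 h2
    show sg Y c A C r i γ = _
    unfold sg
    rw [h3, h4]
  have hbd : ∀ β, A (r β) (i β) ≤ f β ∧ f β < A (r β) (i β + 1) := by
    intro β
    obtain ⟨h1, h2⟩ := H1 β
    obtain ⟨h3, h4⟩ := H3 (r β) (i β)
    obtain ⟨h5, h6⟩ := H4 (r β) (i β)
    rw [hval β (i β) β h1 h2]
    by_cases h : β < c (r β) (i β)
    · rw [if_pos h]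
      exact ⟨left_le_aff h3 h5 h1, (aff_lt_right h3 h5 h).trans h6⟩
    · rw [if_neg h]
      exact ⟨h5.le.trans (left_le_aff h4 h6 (not_lt.1 h)), aff_lt_right h4 h6 h2⟩
  have hYm : ∀ ρ, StrictMono (Y ρ) := fun ρ =>
    strictMono_int_of_lt_succ fun j => (H3 ρ j).1.trans (H3 ρ j).2
  have hAm : ∀ ρ, StrictMono (A ρ) := fun ρ =>
    strictMono_int_of_lt_succ fun j => (H4 ρ j).1.trans (H4 ρ j).2
  have hb : ∀ β, f β ≤ (g ^ K) β ∧ β ≤ (g ^ K) (f β) := by
    intro β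
    exact ⟨(hbd β).2.le.trans (H5 β).1, (H5 β).2.trans ((g ^ K).monotone (hbd β).1)⟩
  have hmono : StrictMono f := by
    intro β γ h
    by_cases hr : r β = r γ
    · have hi : i β ≤ i γ := by
        by_contra hcon
        have h1 : i γ + 1 ≤ i β := by omega
        have h2 := (hYm (r β)).monotone h1
        have h3 := (H1 γ).2
        rw [← hr] at h3
        have h4 := (H1 β).1
        linarith
      rcases hi.eq_or_lt with hi | hi
      · obtain ⟨h1, h2⟩ := H1 β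
        obtain ⟨h1', h2'⟩ := H1 γ
        rw [← hr, ← hi] at h1' h2'
        obtain ⟨h3, h4⟩ := H3 (r β) (i β)
        obtain ⟨h5, h6⟩ := H4 (r β) (i β)
        rw [hval β (i β) β h1 h2, hval β (i β) γ h1' h2']
        by_cases hβ : β < c (r β) (i β)
        · rw [if_pos hβ]
          by_cases hγ : γ < c (r β) (i β)
          · rw [if_pos hγ]
            exact aff_lt h3 h5 h
          · rw [if_neg hγ]
            exact (aff_lt_right h3 h5 hβ).trans_le (left_le_aff h4 h6 (not_lt.1 hγ))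
        · have hγ : ¬ γ < c (r β) (i β) := fun h' => hβ (h.trans h')
          rw [if_neg hβ, if_neg hγ]
          exact aff_lt h4 h6 h
      · have h1 : i β + 1 ≤ i γ := by omega
        have h2 := (hAm (r β)).monotone h1
        have h3 := (hbd β).2
        have h4 := (hbd γ).1
        rw [← hr] at h4
        linarith
    · by_contra hcon
      push Not at hcon
      have h1 := H6 β γ hr h (K + K)
      rw [pow_add_apply] at h1
      have h2 : (g ^ K) (f γ) ≤ (g ^ K) ((g ^ K) β) := (g ^ K).monotone (hcon.trans (hb β).1)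
      have h3 := (hb γ).2
      linarith
  have hsurj : Function.Surjective f := by
    intro γ
    obtain ⟨j, h1, h2⟩ := H7 γ
    obtain ⟨h3, h4⟩ := H3 (r γ) j
    obtain ⟨h5, h6⟩ := H4 (r γ) j
    by_cases h : γ < C (r γ) j
    · have e1 := left_le_aff (a := A (r γ) j) (b := C (r γ) j) (c := Y (r γ) j)
        (d := c (r γ) j) h5 h3 h1
      have e2 := aff_lt_right (a := A (r γ) j) (b := C (r γ) j) (c := Y (r γ) j)
        (d := c (r γ) j) h5 h3 h
      refine ⟨aff (A (r γ) j) (C (r γ) j) (Y (r γ) j) (c (r γ) j) γ, ?_⟩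
      rw [hval γ j _ e1 (e2.trans h4), if_pos e2]
      exact aff_aff h3 h5 γ
    · have h' := not_lt.1 h
      have e1 := left_le_aff (a := C (r γ) j) (b := A (r γ) (j + 1)) (c := c (r γ) j)
        (d := Y (r γ) (j + 1)) h6 h4 h'
      have e2 := aff_lt_right (a := C (r γ) j) (b := A (r γ) (j + 1)) (c := c (r γ) j)
        (d := Y (r γ) (j + 1)) h6 h4 h2
      refine ⟨aff (C (r γ) j) (A (r γ) (j + 1)) (c (r γ) j) (Y (r γ) (j + 1)) γ, ?_⟩
      rw [hval γ j _ (h3.le.trans e1) e2, if_neg (not_lt.2 e1)]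
      exact aff_aff h4 h6 γ
  refine ⟨StrictMono.orderIsoOfSurjective f hmono hsurj, fun β j => ⟨?_, ?_⟩, hb⟩
  · show f (Y (r β) j) = _
    obtain ⟨h3, h4⟩ := H3 (r β) j
    rw [hval β j _ le_rfl (h3.trans h4), if_pos h3, aff_left]
  · show f (c (r β) j) = _
    obtain ⟨h3, h4⟩ := H3 (r β) j
    rw [hval β j _ h3.le h4, if_neg (lt_irrefl _), aff_left]

end glue

/-! ### orbits -/

/-- points in the same component -/
def rel (g : ℚ ≃o ℚ) : Setoid ℚ where
  r β γ := ∃ n : ℕ, γ ≤ (g ^ n) β ∧ β ≤ (g ^ n) γ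
  iseqv :=
    { refl := fun x => ⟨0, by rw [pow_zero_apply], by rw [pow_zero_apply]⟩
      symm := fun ⟨n, h1, h2⟩ => ⟨n, h2, h1⟩
      trans := by
        rintro x y z ⟨n, h1, h2⟩ ⟨m, h3, h4⟩
        refine ⟨m + n, ?_, ?_⟩
        · rw [pow_add_apply]
          exact h3.trans ((g ^ m).monotone h1)
        · rw [add_comm, pow_add_apply]
          exact h2.trans ((g ^ n).monotone h4) }

/-- the representative of the component -/
noncomputable def rep (g : ℚ ≃o ℚ) (β : ℚ) : ℚ := Quotient.out (Quotient.mk (rel g) β)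

theorem rep_rel (g : ℚ ≃o ℚ) (β : ℚ) : (rel g) (rep g β) β :=
  Quotient.exact (Quotient.out_eq (Quotient.mk (rel g) β))

theorem rep_eq (g : ℚ ≃o ℚ) {β γ : ℚ} (h : (rel g) β γ) : rep g β = rep g γ := by
  unfold rep
  rw [Quotient.sound h]

/-- `S_EXPAND` with the explicit exponent `6`. -/
def S_EXPAND6 : Prop :=
  ∀ (g b : ℚ ≃o ℚ), (∀ x, x < g x) → (∀ x, x ≤ b x) → (∀ x, b x < g x) →
    (∀ x, ∃ y, x ≤ y ∧ y < g x ∧ y < b y) →
    ∃ (s t : ℚ ≃o ℚ),
      (∀ x, s x ≤ (g ^ 6) x) ∧ (∀ x, x ≤ (g ^ 6) (s x)) ∧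
      (∀ x, t x ≤ (g ^ 6) x) ∧ (∀ x, x ≤ (g ^ 6) (t x)) ∧
      ∀ x, g x ≤ (((t * b * t⁻¹) * (s * b * s⁻¹)) * ((t * b * t⁻¹) * (s * b * s⁻¹))) x

theorem t_EXPAND6 : S_EXPAND6 := by
  intro g b hg hb1 hb2 hex
  choose p hp1 hp2 hp3 using hex
  let Y : ℚ → ℤ → ℚ := fun ρ j => p ((g ^ (2 * j)) ρ)
  have hstep : ∀ ρ (j : ℤ), (g ^ (2 * (j + 1))) ρ = g (g ((g ^ (2 * j)) ρ)) := by
    intro ρ j
    have e : (2 : ℤ) * (j + 1) = 1 + (1 + 2 * j) := by ring
    rw [e, zpow_add_apply, zpow_add_apply, zpow_one]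
  have Y0 : ∀ ρ j, g (Y ρ j) < Y ρ (j + 1) := by
    intro ρ j
    show g (p _) < p _
    have h1 := hp2 ((g ^ (2 * j)) ρ)
    have h2 := hp1 ((g ^ (2 * (j + 1))) ρ)
    rw [hstep] at h2 ⊢
    exact (g.strictMono h1).trans_le h2
  have Y2 : ∀ ρ j, Y ρ (j + 1) ≤ (g ^ 3) (Y ρ j) := by
    intro ρ j
    show p _ ≤ (g ^ 3) (p _)
    have h1 := hp2 ((g ^ (2 * (j + 1))) ρ)
    have h2 := hp1 ((g ^ (2 * j)) ρ)
    rw [hstep] at h1 ⊢
    have h3 : (g ^ 3) (p ((g ^ (2 * j)) ρ)) = g (g (g (p ((g ^ (2 * j)) ρ)))) := rfl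
    rw [h3]
    exact h1.le.trans (g.monotone (g.monotone (g.monotone h2)))
  have Ym : ∀ ρ, StrictMono (Y ρ) := fun ρ =>
    strictMono_int_of_lt_succ fun j => (hg _).trans (Y0 ρ j)
  have Y3 : ∀ ρ β, (rel g) ρ β → ∃ j, Y ρ j ≤ β ∧ β < Y ρ (j + 1) := by
    rintro ρ β ⟨n, h1, h2⟩
    obtain ⟨j, hj, hmax⟩ := Int.exists_greatest_of_bdd (P := fun j => Y ρ j ≤ β)
      ⟨n, fun j hj => by
        have h3 : (g ^ (2 * j)) ρ ≤ (g ^ (n : ℤ)) ρ := by
          rw [zpow_nat_apply]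
          exact (hp1 _).trans (hj.trans h1)
        have h4 := (zpow_strictMono hg ρ).le_iff_le.1 h3
        omega⟩
      ⟨-((n : ℤ) + 1), by
        show p _ ≤ β
        have h3 := hp2 ((g ^ (2 * -((n : ℤ) + 1))) ρ)
        have h4 : g ((g ^ (2 * -((n : ℤ) + 1))) ρ) = (g ^ (-2 * (n : ℤ) - 1)) ρ := by
          have e : -2 * (n : ℤ) - 1 = 1 + 2 * -((n : ℤ) + 1) := by ring
          rw [e, zpow_add_apply, zpow_one]
        have h5 : (g ^ (-2 * (n : ℤ) - 1)) ρ ≤ (g ^ (-(n : ℤ))) ρ :=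
          (zpow_strictMono hg ρ).monotone (by omega)
        have h6 : (g ^ (-(n : ℤ))) ρ ≤ β := by
          have h7 := (g ^ (-(n : ℤ))).monotone h2
          have h8 : (g ^ (-(n : ℤ))) ((g ^ n) β) = β := by
            rw [← zpow_nat_apply, ← zpow_add_apply, neg_add_cancel, zpow_zero]
            rfl
          rwa [h8] at h7
        rw [h4] at h3
        exact h3.le.trans (h5.trans h6)⟩
    refine ⟨j, hj, ?_⟩
    by_contra hcon
    have := hmax (j + 1) (not_lt.1 hcon)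
    omega
  have hex2 : ∀ β, ∃ j, Y (rep g β) j ≤ β ∧ β < Y (rep g β) (j + 1) :=
    fun β => Y3 _ _ (rep_rel g β)
  choose i hi using hex2
  have hrel : ∀ β γ (n : ℕ), γ ≤ (g ^ n) β → β ≤ (g ^ n) γ → rep g γ = rep g β := by
    intro β γ n h1 h2
    exact rep_eq g ⟨n, h2, h1⟩
  -- points near the orbit of the representative
  have hzp : ∀ ρ (j : ℤ), (rel g) ρ ((g ^ j) ρ) := by
    intro ρ j
    rcases le_total 0 j with h | h
    · obtain ⟨n, rfl⟩ := Int.eq_ofNat_of_zero_le h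
      refine ⟨n, ?_, ?_⟩
      · rw [zpow_nat_apply]
      · rw [zpow_nat_apply]
        exact (le_pow hg _ _).trans (le_pow hg _ _)
    · obtain ⟨n, hn⟩ := Int.eq_ofNat_of_zero_le (neg_nonneg.2 h)
      have hj : j = -(n : ℤ) := by omega
      subst hj
      refine ⟨n, ?_, ?_⟩
      · have h1 : (g ^ (-(n : ℤ))) ρ ≤ (g ^ (0 : ℤ)) ρ :=
          (zpow_strictMono hg ρ).monotone (by omega)
        rw [zpow_zero] at h1
        exact h1.trans (le_pow hg _ _)
      · rw [← zpow_nat_apply, ← zpow_add_apply, add_neg_cancel, zpow_zero]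
        exact le_rfl
  have hnear : ∀ ρ (j : ℤ) γ, Y ρ j ≤ γ → γ < Y ρ (j + 1) → (rel g) ρ γ := by
    intro ρ j γ h1 h2
    refine (rel g).trans' (hzp ρ (2 * j)) ?_
    refine ⟨4, ?_, ?_⟩
    · have h3 := h2.le.trans (Y2 ρ j)
      have h4 := (g ^ 3).monotone (hp2 ((g ^ (2 * j)) ρ)).le
      have h5 : (g ^ 3) (g ((g ^ (2 * j)) ρ)) = (g ^ 4) ((g ^ (2 * j)) ρ) := rfl
      rw [h5] at h4
      exact h3.trans h4
    · exact ((hp1 _).trans h1).trans (le_pow hg _ _)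
  have H2 : ∀ β j γ, Y (rep g β) j ≤ γ → γ < Y (rep g β) (j + 1) →
      rep g γ = rep g β ∧ i γ = j := by
    intro β j γ h1 h2
    have h3 : rep g γ = rep g β := by
      have h4 := hnear _ _ _ h1 h2
      exact rep_eq g ((rel g).trans' ((rel g).symm' h4) (rep_rel g β))
    refine ⟨h3, ?_⟩
    obtain ⟨h4, h5⟩ := hi γ
    rw [h3] at h4 h5
    have h6 := (Ym (rep g β)).lt_iff_lt.1 (h4.trans_lt h2)
    have h7 := (Ym (rep g β)).lt_iff_lt.1 (h1.trans_lt h5)
    omega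
  have H3 : ∀ ρ j, Y ρ j < b (Y ρ j) ∧ b (Y ρ j) < Y ρ (j + 1) :=
    fun ρ j => ⟨hp3 _, (hb2 _).trans (Y0 ρ j)⟩
  have H6 : ∀ β γ, rep g β ≠ rep g γ → β < γ → ∀ n, (g ^ n) β < γ := by
    intro β γ hne h n
    by_contra hcon
    apply hne
    exact rep_eq g ⟨n, not_lt.1 hcon, h.le.trans (le_pow hg _ _)⟩
  -- the first automorphism
  obtain ⟨s, hs1, hs2⟩ := glue g Y (fun ρ j => b (Y ρ j)) Y (fun ρ j => g (Y ρ j)) (rep g) i 6 hg hi
    H2 H3 (fun ρ j => ⟨hg _, Y0 ρ j⟩) (fun β => by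
      obtain ⟨h1, h2⟩ := hi β
      have h3 := Y2 (rep g β) (i β)
      have h4 : (g ^ 3) (Y (rep g β) (i β)) ≤ (g ^ 6) (Y (rep g β) (i β)) :=
        pow_mono hg (by norm_num) _
      exact ⟨h3.trans (h4.trans ((g ^ 6).monotone h1)), h2.le.trans (h3.trans h4)⟩) H6
    (fun γ => ⟨i γ, hi γ⟩)
  -- the second automorphism
  obtain ⟨t, ht1, ht2⟩ := glue g Y (fun ρ j => b (Y ρ j)) (fun ρ j => g (Y ρ (j - 1))) Y (rep g) i
    6 hg hi H2 H3 (fun ρ j => by
      have h1 := Y0 ρ (j - 1)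
      rw [sub_add_cancel] at h1
      refine ⟨h1, ?_⟩
      show Y ρ j < g (Y ρ (j + 1 - 1))
      rw [add_sub_cancel_right]
      exact hg _) (fun β => by
      obtain ⟨h1, h2⟩ := hi β
      show g (Y (rep g β) (i β + 1 - 1)) ≤ _ ∧ β ≤ (g ^ 6) (g (Y (rep g β) (i β - 1)))
      rw [add_sub_cancel_right]
      constructor
      · have h3 : (g ^ 1) β ≤ (g ^ 6) β := pow_mono hg (by norm_num) _
        rw [pow_one] at h3
        exact (g.monotone h1).trans h3
      · have h3 := Y2 (rep g β) (i β)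
        have h4 := Y2 (rep g β) (i β - 1)
        rw [sub_add_cancel] at h4
        have h5 := (g ^ 3).monotone h4
        rw [← pow_add_apply] at h5
        have h6 : (g ^ (3 + 3)) (Y (rep g β) (i β - 1)) ≤
            (g ^ 6) (g (Y (rep g β) (i β - 1))) := (g ^ 6).monotone (hg _).le
        exact h2.le.trans (h3.trans (h5.trans h6))) H6
    (fun γ => by
      obtain ⟨h1, h2⟩ := hi γ
      by_cases h : γ < g (Y (rep g γ) (i γ))
      · refine ⟨i γ, ?_, ?_⟩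
        · have h3 := Y0 (rep g γ) (i γ - 1)
          rw [sub_add_cancel] at h3
          exact h3.le.trans h1
        · show γ < g (Y (rep g γ) (i γ + 1 - 1))
          rw [add_sub_cancel_right]
          exact h
      · refine ⟨i γ + 1, ?_, ?_⟩
        · show g (Y (rep g γ) (i γ + 1 - 1)) ≤ γ
          rw [add_sub_cancel_right]
          exact not_lt.1 h
        · show γ < g (Y (rep g γ) (i γ + 1 + 1 - 1))
          rw [add_sub_cancel_right]
          exact h2.trans (hg _))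
  refine ⟨s, t, fun x => (hs2 x).1, fun x => (hs2 x).2, fun x => (ht2 x).1,
    fun x => (ht2 x).2, fun x => ?_⟩
  set W : ℚ ≃o ℚ := (t * b * t⁻¹) * (s * b * s⁻¹) with hW
  have hWY : ∀ β j, W (Y (rep g β) j) = Y (rep g β) (j + 1) := by
    intro β j
    have e1 : s⁻¹ (Y (rep g β) j) = Y (rep g β) j := by
      have h1 := (hs1 β j).1
      calc s⁻¹ (Y (rep g β) j) = s⁻¹ (s (Y (rep g β) j)) := by rw [h1]
        _ = Y (rep g β) j := s.symm_apply_apply _
    have e2 : t⁻¹ (g (Y (rep g β) j)) = Y (rep g β) (j + 1) := by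
      have h1 := (ht1 β (j + 1)).1
      rw [add_sub_cancel_right] at h1
      calc t⁻¹ (g (Y (rep g β) j)) = t⁻¹ (t (Y (rep g β) (j + 1))) := by rw [h1]
        _ = Y (rep g β) (j + 1) := t.symm_apply_apply _
    show t (b (t⁻¹ (s (b (s⁻¹ (Y (rep g β) j)))))) = _
    rw [e1, (hs1 β j).2, e2, (ht1 β (j + 1)).2]
  obtain ⟨h1, h2⟩ := hi x
  show g x ≤ W (W x)
  have h3 := W.monotone (W.monotone h1)
  rw [hWY, hWY] at h3
  have h4 := Y0 (rep g x) (i x + 1)
  have h5 := g.monotone h2.le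
  exact (h5.trans h4.le).trans h3

end Pool.Agent.Y42.AB.E6
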