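import Pool.Agent.Y42.AB.Dec
import Pool.Agent.Y409.AB.CHAIN

/-! Countable lexicographic extensions are not amalgamation bases. -/

namespace Pool.Agent.Y42.AB

open Pool.Agent.Helper539.LG

universe u

section

variable {A : Type} [Group A] [Lattice A] [MulLeftMono A] [MulRightMono A]
  {V : Subgroup A}

theorem above (hsep : ∀ x, x ∉ V → (∀ v ∈ V, v < x) ∨ (∀ v ∈ V, x < v)) {y : A} (hy : y ∉ V)
    (hy1 : 1 ≤ y) : ∀ v ∈ V, v < y := by
  refine (hsep y hy).resolve_right fun h => ?_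
  exact absurd (h 1 V.one_mem) (not_lt_of_ge hy1)

theorem both_mem (hV : V ≠ ⊥)
    (hsep : ∀ x, x ∉ V → (∀ v ∈ V, v < x) ∨ (∀ v ∈ V, x < v)) {w : A} (hw : w ∈ V) :
    w ⊔ 1 ∈ V := by
  by_contra hp
  have hpw : w ⊔ 1 = w * (w⁻¹ ⊔ 1) := by
    rw [mul_sup, mul_inv_cancel, mul_one, sup_comm]
  have hn : w⁻¹ ⊔ 1 ∉ V := by
    intro hn
    apply hp
    rw [hpw]
    exact V.mul_mem hw hn
  have h2 : ∀ v ∈ V, v ≤ 1 := by
    intro v hv
    rw [← pos_inf_pos w]
    exact le_inf (above hsep hp le_sup_right v hv).le (above hsep hn le_sup_right v hv).le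
  obtain ⟨x, hx, hx1⟩ := V.bot_or_exists_ne_one.resolve_left hV
  exact hx1 (le_antisymm (h2 x hx) (Left.inv_le_one_iff.1 (h2 x⁻¹ (V.inv_mem hx))))

theorem exists_pos_mem (hV : V ≠ ⊥)
    (hsep : ∀ x, x ∉ V → (∀ v ∈ V, v < x) ∨ (∀ v ∈ V, x < v)) : ∃ b ∈ V, 1 < b := by
  obtain ⟨w, hw, hw1⟩ := V.bot_or_exists_ne_one.resolve_left hV
  have h1 := both_mem hV hsep hw
  have h2 := both_mem hV hsep (V.inv_mem hw)
  by_cases h : w ≤ 1
  · refine ⟨_, h2, lt_of_le_of_ne le_sup_right fun h' => hw1 (le_antisymm h ?_)⟩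
    have : w⁻¹ ≤ 1 := by
      rw [h']
      exact le_sup_left
    exact Left.inv_le_one_iff.1 this
  · refine ⟨_, h1, lt_of_le_of_ne le_sup_right fun h' => h ?_⟩
    rw [h']
    exact le_sup_left

/-- The action on the quotient by `V`. -/
theorem quot_rep [Countable A] [V.Normal] (hV : V ≠ ⊥)
    (hsep : ∀ x, x ∉ V → (∀ v ∈ V, v < x) ∨ (∀ v ∈ V, x < v)) :
    ∃ π : A →* Aut ℚ, IsLHom π ∧ (∀ v ∈ V, π v = 1) ∧ ∀ g, g ∉ V → 1 < g → π g ≠ 1 := by
  classical
  let R : A → A → Prop := fun x y => y⁻¹ * x ∈ V ∨ x ≤ y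
  have hdiv : ∀ x y z : A, z⁻¹ * x = (z⁻¹ * y) * (y⁻¹ * x) := fun x y z => by group
  have hr : ∀ p, R p p := fun p => Or.inr le_rfl
  have hlow : ∀ x y : A, x ≤ y → y⁻¹ * x ∉ V → ∀ v ∈ V, y⁻¹ * x < v := by
    intro x y hxy hn
    refine (hsep _ hn).resolve_left fun h => ?_
    have h1 : y⁻¹ * x ≤ 1 := by
      have := mulLL hxy y⁻¹
      rwa [inv_mul_cancel] at this
    exact absurd (h 1 V.one_mem) (not_lt_of_ge h1)
  have hback : ∀ x z : A, z⁻¹ * x ≤ 1 → x ≤ z := by
    intro x z h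
    have := mulLL h z
    rwa [mul_inv_cancel_left, mul_one] at this
  have ht : ∀ p q r, R p q → R q r → R p r := by
    intro x y z hxy hyz
    by_cases h1 : y⁻¹ * x ∈ V
    · by_cases h2 : z⁻¹ * y ∈ V
      · left; rw [hdiv x y z]; exact V.mul_mem h2 h1
      · right
        have h3 := hlow y z (hyz.resolve_left h2) h2 _ (V.inv_mem h1)
        apply hback
        rw [hdiv x y z]
        have := mulRR h3.le (y⁻¹ * x)
        rwa [inv_mul_cancel] at this
    · by_cases h2 : z⁻¹ * y ∈ V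
      · right
        have h3 := hlow x y (hxy.resolve_left h1) h1 _ (V.inv_mem h2)
        apply hback
        rw [hdiv x y z]
        have := mulLL h3.le (z⁻¹ * y)
        rwa [mul_inv_cancel] at this
      · right
        exact (hxy.resolve_left h1).trans (hyz.resolve_left h2)
  have htot : ∀ p q, R p q ∨ R q p := by
    intro x y
    by_cases h1 : y⁻¹ * x ∈ V
    · exact Or.inl (Or.inl h1)
    · rcases hsep _ h1 with h | h
      · right; right
        have := mulLL (h 1 V.one_mem).le y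
        rwa [mul_inv_cancel_left, mul_one] at this
      · left; right
        exact hback _ _ (h 1 V.one_mem).le
  have hinv : ∀ a p q, R p q → R (a * p) (a * q) := by
    rintro a p q (h | h)
    · left
      have : (a * q)⁻¹ * (a * p) = q⁻¹ * p := by group
      rw [this]; exact h
    · right
      exact mulLL h a
  obtain ⟨ρ, e, he, hρ, hle, hlt⟩ := Pool.Agent.Y409.AB.gen (A := A) (P := A)
    (fun a p => a * p) (fun p => one_mul p) (fun a b p => mul_assoc a b p) R hr ht htot hinv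
  have hcongr : ∀ x y s, y⁻¹ * x ∈ V → e x s = e y s := by
    intro x y s h
    apply le_antisymm
    · exact hle _ _ _ (Or.inl h)
    · apply hle
      left
      have : x⁻¹ * y = (y⁻¹ * x)⁻¹ := by group
      rw [this]; exact V.inv_mem h
  have hnorm : ∀ x y p : A, y⁻¹ * x ∈ V → (y * p)⁻¹ * (x * p) ∈ V := by
    intro x y p h
    have : (y * p)⁻¹ * (x * p) = p⁻¹ * (y⁻¹ * x) * p⁻¹⁻¹ := by group
    rw [this]
    exact Subgroup.Normal.conj_mem inferInstance _ h _
  have hRp : ∀ x y p : A, R x y → R (x * p) (y * p) := by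
    rintro x y p (h | h)
    · exact Or.inl (hnorm x y p h)
    · exact Or.inr (mulRR h p)
  have hsup : ∀ x y p s, R x y → e ((x ⊔ y) * p) s = e (y * p) s := by
    rintro x y p s (h | h)
    · apply hcongr
      apply hnorm
      have : y⁻¹ * (x ⊔ y) = (y⁻¹ * x) ⊔ 1 := by rw [mul_sup, inv_mul_cancel]
      rw [this]
      exact both_mem hV hsep h
    · rw [sup_eq_right.mpr h]
  have hinf : ∀ x y p s, R x y → e ((x ⊓ y) * p) s = e (x * p) s := by
    rintro x y p s (h | h)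
    · apply hcongr
      apply hnorm
      have : x⁻¹ * (x ⊓ y) = ((y⁻¹ * x) ⊔ 1)⁻¹ := by
        rw [mul_inf, inv_mul_cancel, inv_sup, mul_inv_rev, inv_inv, inv_one, inf_comm]
      rw [this]
      exact V.inv_mem (both_mem hV hsep h)
    · rw [inf_eq_left.mpr h]
  refine ⟨ρ, ⟨?_, ?_⟩, ?_, ?_⟩
  · intro x y
    apply Aut.ext
    intro q
    obtain ⟨p, s, rfl⟩ := he q
    rw [Aut.inf_apply]
    change ρ (x ⊓ y) (e p s) = min (ρ x (e p s)) (ρ y (e p s))
    rw [hρ, hρ, hρ]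
    rcases htot x y with h | h
    · rw [hinf x y p s h, min_eq_left (hle _ _ _ (hRp x y p h))]
    · rw [inf_comm, hinf y x p s h, min_eq_right (hle _ _ _ (hRp y x p h))]
  · intro x y
    apply Aut.ext
    intro q
    obtain ⟨p, s, rfl⟩ := he q
    rw [Aut.sup_apply]
    change ρ (x ⊔ y) (e p s) = max (ρ x (e p s)) (ρ y (e p s))
    rw [hρ, hρ, hρ]
    rcases htot x y with h | h
    · rw [hsup x y p s h, max_eq_right (hle _ _ _ (hRp x y p h))]
    · rw [sup_comm, hsup y x p s h, max_eq_left (hle _ _ _ (hRp y x p h))]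
  · intro v hv
    apply Aut.ext
    intro q
    obtain ⟨p, s, rfl⟩ := he q
    rw [Aut.one_apply]
    change ρ v (e p s) = e p s
    rw [hρ]
    apply hcongr
    have : p⁻¹ * (v * p) = p⁻¹ * v * p⁻¹⁻¹ := by group
    rw [this]
    exact Subgroup.Normal.conj_mem inferInstance _ hv _
  · intro g hg hg1 h
    obtain ⟨p, s, -⟩ := he 0
    have h1 : ρ g (e 1 s) = e 1 s := by
      have : (ρ g : ℚ ≃o ℚ) = 1 := h
      rw [this]
      rfl
    rw [hρ, mul_one] at h1
    have h2 : e 1 s < e g s := by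
      apply hlt
      rintro (h3 | h3)
      · rw [inv_one, one_mul] at h3
        exact hg h3
      · exact absurd hg1 (not_lt_of_ge h3)
    exact h2.ne h1.symm

theorem ext_noBase (CH : S_CHAIN) (EX : S_EXPAND) [Countable A] [V.Normal] (hV : V ≠ ⊥)
    (hV' : V ≠ ⊤) (hsep : ∀ x, x ∉ V → (∀ v ∈ V, v < x) ∨ (∀ v ∈ V, x < v)) :
    NoBase.{u} A := by
  classical
  obtain ⟨b, hbV, hb⟩ := exists_pos_mem hV hsep
  obtain ⟨g, hgV, hg⟩ : ∃ g : A, g ∉ V ∧ 1 < g := by
    have : ∃ x : A, x ∉ V := by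
      by_contra h
      push Not at h
      exact hV' ((Subgroup.eq_top_iff' V).mpr h)
    obtain ⟨x, hx⟩ := this
    rcases hsep x hx with h | h
    · exact ⟨x, hx, h 1 V.one_mem⟩
    · refine ⟨x⁻¹, fun h' => hx (by simpa using V.inv_mem h'), ?_⟩
      exact one_lt_inv'.mpr (h 1 V.one_mem)
  have hbg : b ≤ g := (above hsep hgV hg.le b hbV).le
  obtain ⟨ρ, hinj, hsup, hinf, hmove, hpt⟩ := CH A V hV hsep
  let r : A →* Aut ℚ := ρ
  have hρ : IsLEmb r := by
    refine ⟨hinj, ?_, ?_⟩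
    · intro x y
      apply Aut.ext
      intro q
      exact hinf x y q
    · intro x y
      apply Aut.ext
      intro q
      exact hsup x y q
  obtain ⟨π, hπ, hπV, hπg⟩ := quot_rep hV hsep
  have hπmono : ∀ x y : A, x ≤ y → π x ≤ π y := by
    intro x y h
    rw [← inf_eq_left.mpr h, hπ.1]
    exact inf_le_right
  have h1b : 1 ≤ r b := by rw [← map_one r]; exact hρ.mono hb.le
  have h1g : 1 ≤ r g := by rw [← map_one r]; exact hρ.mono hg.le
  have h1π : 1 ≤ π g := by rw [← map_one π]; exact hπmono _ _ hg.le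
  have hrbg : r b ≤ r g := hρ.mono hbg
  obtain ⟨s, t, k, hs, hs', ht, ht', hW⟩ := EX (ρ g * ρ g) (ρ b)
    (fun x => (hmove g hgV hg x).trans (hmove g hgV hg _))
    (fun x => h1b x)
    (fun x => lt_of_le_of_lt (hrbg x) (hmove g hgV hg _))
    (fun x => hpt g hgV hg b hbV hb x)
  have hpow : ((ρ g * ρ g) ^ k : ℚ ≃o ℚ) = (r g ^ (2 * k) : Aut ℚ) := by
    rw [pow_mul, pow_two]
    rfl
  set S : Aut ℚ := s with hS
  set T : Aut ℚ := t with hT
  have hS1 : S ≤ r g ^ (2 * k) := by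
    rw [← hpow]; exact hs
  have hS2 : 1 ≤ r g ^ (2 * k) * S := by
    rw [← hpow]; exact hs'
  have hT1 : T ≤ r g ^ (2 * k) := by
    rw [← hpow]; exact ht
  have hT2 : 1 ≤ r g ^ (2 * k) * T := by
    rw [← hpow]; exact ht'
  have hWW : r g ≤ ((T * r b * T⁻¹) * (S * r b * S⁻¹)) * ((T * r b * T⁻¹) * (S * r b * S⁻¹)) := by
    have h1 : r g ≤ r g * r g := le_mul_of_one_le_left' h1g
    exact h1.trans hW
  set gC : A →* Aut ℚ × Aut ℚ := π.prod r with hgC
  have hge : IsLEmb gC := by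
    refine ⟨?_, ?_, ?_⟩
    · intro x y h
      exact hρ.1 (congrArg Prod.snd h)
    · intro x y
      exact Prod.ext (hπ.1 x y) (hρ.2.1 x y)
    · intro x y
      exact Prod.ext (hπ.2 x y) (hρ.2.2 x y)
  refine ⟨_, inferInstance, inferInstance, inferInstance, inferInstance,
    _, inferInstance, inferInstance, inferInstance, inferInstance, r, gC, hρ, hge, ?_⟩
  intro D _ _ _ _ f' g' hf' hg' h
  have hx : ∀ x, f' (r x) = g' (gC x) := fun x => congrArg (fun φ => φ x) h
  refine obst_lex (g := g' (gC g)) (g2 := g' (1, r g)) (v := g' (π g, 1)) (b := g' (gC b))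
    (s := f' S) (t := f' T) (k := 2 * k) ?_ ?_ ?_ ?_ ?_ ?_ ?_ ?_ ?_ ?_ ?_
  · rw [← map_one g']
    exact hg'.mono ⟨h1π, le_rfl⟩
  · rw [← map_one g']
    intro e
    exact hπg g hgV hg (congrArg Prod.fst (hg'.1 e))
  · rw [← map_one g']
    exact hg'.mono ⟨le_rfl, h1g⟩
  · rw [← hg'.2.1, ← map_one g']
    congr 1
    apply Prod.ext
    · exact inf_eq_right.mpr h1π
    · exact inf_eq_left.mpr h1g
  · rw [← hg'.2.1, ← map_one g']
    congr 1
    apply Prod.ext
    · show π g ⊓ π b = 1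
      rw [hπV b hbV]
      exact inf_eq_right.mpr h1π
    · exact inf_eq_left.mpr h1b
  · rw [← map_mul]
    have h1 : gC g = (π g, 1) * (1, r g) := by
      apply Prod.ext
      · exact (mul_one _).symm
      · exact (one_mul _).symm
    rw [h1]
  · rw [← hx, ← map_pow]
    exact hf'.mono hS1
  · rw [← hx, ← map_pow, ← map_mul, ← map_one f']
    exact hf'.mono hS2
  · rw [← hx, ← map_pow]
    exact hf'.mono hT1
  · rw [← hx, ← map_pow, ← map_mul, ← map_one f']
    exact hf'.mono hT2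
  · rw [← hx, ← hx]
    simp only [← map_inv, ← map_mul]
    exact hf'.mono hWW

end

end Pool.Agent.Y42.AB
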