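import Mathlib

/-! Statement of the structure part (finitely generated abelian ℓ-groups). -/

namespace Pool.Agent.Y42.AB

/-- A finitely generated abelian ℓ-group is archimedean totally ordered, or a lexicographic
extension, or a cardinal product. -/
def S_DICH : Prop :=
  ∀ (A : Type) [CommGroup A] [Lattice A] [MulLeftMono A] [Group.FG A] [Nontrivial A],
    ((∀ x y : A, x ≤ y ∨ y ≤ x) ∧ ∀ x y : A, 1 < y → ∃ n : ℕ, x ≤ y ^ n) ∨
    (∃ V : Subgroup A, V ≠ ⊥ ∧ V ≠ ⊤ ∧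
      ∀ x, x ∉ V → (∀ v ∈ V, v < x) ∨ (∀ v ∈ V, x < v)) ∨
    (∃ (A₁ A₂ : Type) (_ : Group A₁) (_ : Lattice A₁) (_ : MulLeftMono A₁)
      (_ : MulRightMono A₁) (_ : Group A₂) (_ : Lattice A₂) (_ : MulLeftMono A₂)
      (_ : MulRightMono A₂) (e : A ≃* A₁ × A₂), Nontrivial A₁ ∧ Nontrivial A₂ ∧
      (∀ x y, e (x ⊓ y) = e x ⊓ e y) ∧ (∀ x y, e (x ⊔ y) = e x ⊔ e y))

end Pool.Agent.Y42.AB
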