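import Pool.Agent.Y42.AB.Ext
import Pool.Agent.Y42.AB.Stm2
import Pool.Agent.Y457.AB.Hol
import Pool.Agent.Y908.AB.EXPAND

/-! Assembly: amalgamation bases of lattice-ordered groups. -/

namespace Pool.Agent.Y42.AB

open Pool.Agent.Helper539.LG

universe u

theorem noBase_congr {A A' : Type} [Group A] [Lattice A] [Group A'] [Lattice A'] (e : A ≃* A')
    (h1 : ∀ x y, e (x ⊓ y) = e x ⊓ e y) (h2 : ∀ x y, e (x ⊔ y) = e x ⊔ e y)
    (h : NoBase.{u} A') : NoBase.{u} A := by
  obtain ⟨B, i1, i2, i3, i4, C, j1, j2, j3, j4, f, g, hf, hg, hh⟩ := h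
  refine ⟨B, i1, i2, i3, i4, C, j1, j2, j3, j4, f.comp e.toMonoidHom, g.comp e.toMonoidHom,
    ⟨fun x y h => e.injective (hf.1 h), ?_, ?_⟩, ⟨fun x y h => e.injective (hg.1 h), ?_, ?_⟩, ?_⟩
  · intro x y
    show f (e (x ⊓ y)) = _
    rw [h1, hf.2.1]
    rfl
  · intro x y
    show f (e (x ⊔ y)) = _
    rw [h2, hf.2.2]
    rfl
  · intro x y
    show g (e (x ⊓ y)) = _
    rw [h1, hg.2.1]
    rfl
  · intro x y
    show g (e (x ⊔ y)) = _
    rw [h2, hg.2.2]
    rfl
  · intro D _ _ _ _ f' g' hf' hg' he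
    apply hh D f' g' hf' hg'
    ext x
    obtain ⟨y, rfl⟩ := e.surjective x
    exact congrArg (fun φ => φ y) he

theorem prod_noBase (A₁ A₂ : Type) [Group A₁] [Lattice A₁] [MulLeftMono A₁] [MulRightMono A₁]
    [Group A₂] [Lattice A₂] [MulLeftMono A₂] [MulRightMono A₂] [Nontrivial A₁] [Nontrivial A₂] :
    NoBase.{u} (A₁ × A₂) := sum_noBase Pool.Agent.Y457.AB.t_HOL

theorem lex_noBase (A : Type) [Group A] [Lattice A] [MulLeftMono A] [MulRightMono A] [Countable A]
    (V : Subgroup A) [V.Normal] (hV : V ≠ ⊥) (hV' : V ≠ ⊤)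
    (hsep : ∀ x, x ∉ V → (∀ v ∈ V, v < x) ∨ (∀ v ∈ V, x < v)) : NoBase.{u} A :=
  ext_noBase Pool.Agent.Y409.AB.t_CHAIN Pool.Agent.Y908.AB.t_EXPAND hV hV' hsep

/-- The subgroup of infinitesimals of the lexicographic plane. -/
def inf2 : Subgroup (Multiplicative (ℤ ×ₗ ℤ)) where
  carrier := {x | (ofLex (Multiplicative.toAdd x)).1 = 0}
  one_mem' := rfl
  mul_mem' := by
    intro x y hx hy
    change (ofLex (Multiplicative.toAdd x)).1 + (ofLex (Multiplicative.toAdd y)).1 = 0
    rw [show (ofLex (Multiplicative.toAdd x)).1 = 0 from hx,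
      show (ofLex (Multiplicative.toAdd y)).1 = 0 from hy, add_zero]
  inv_mem' := by
    intro x hx
    change -(ofLex (Multiplicative.toAdd x)).1 = 0
    rw [show (ofLex (Multiplicative.toAdd x)).1 = 0 from hx, neg_zero]

theorem lexPlane_noBase : NoBase.{u} (Multiplicative (ℤ ×ₗ ℤ)) := by
  have : Countable (Multiplicative (ℤ ×ₗ ℤ)) := inferInstanceAs (Countable (ℤ × ℤ))
  apply lex_noBase _ inf2
  · intro h
    have h1 : Multiplicative.ofAdd (toLex ((0 : ℤ), (1 : ℤ))) ∈ inf2 := rfl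
    rw [h, Subgroup.mem_bot] at h1
    have h2 := congrArg (fun x => (ofLex (Multiplicative.toAdd x)).2) h1
    change (1 : ℤ) = 0 at h2
    omega
  · intro h
    have h1 : Multiplicative.ofAdd (toLex ((1 : ℤ), (0 : ℤ))) ∈ inf2 := by
      rw [h]; exact Subgroup.mem_top _
    change (1 : ℤ) = 0 at h1
    omega
  · intro x hx
    have hx' : (ofLex (Multiplicative.toAdd x)).1 ≠ 0 := hx
    rcases lt_or_gt_of_ne hx' with h | h
    · right
      intro v hv
      have hv' : (ofLex (Multiplicative.toAdd v)).1 = 0 := hv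
      show Multiplicative.toAdd x < Multiplicative.toAdd v
      rw [Prod.Lex.lt_iff]
      left
      rw [hv']
      exact h
    · left
      intro v hv
      have hv' : (ofLex (Multiplicative.toAdd v)).1 = 0 := hv
      show Multiplicative.toAdd v < Multiplicative.toAdd x
      rw [Prod.Lex.lt_iff]
      left
      rw [hv']
      exact h

theorem fg_base (DI : S_DICH) (A : Type) [CommGroup A] [Lattice A] [MulLeftMono A] [Group.FG A]
    (h : ¬ NoBase.{u} A) :
    (∀ x y : A, x ≤ y ∨ y ≤ x) ∧ ∀ x y : A, 1 < y → ∃ n : ℕ, x ≤ y ^ n := by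
  have hR : MulRightMono A := inferInstance
  rcases subsingleton_or_nontrivial A with hs | hs
  · exact ⟨fun x y => Or.inl (Subsingleton.elim x y).le,
      fun x y _ => ⟨0, (Subsingleton.elim _ _).le⟩⟩
  · rcases DI A with h1 | ⟨V, hV, hV', hsep⟩ | ⟨A₁, A₂, i1, i2, i3, i4, j1, j2, j3, j4, e, n1, n2,
      e1, e2⟩
    · exact h1
    · exfalso
      apply h
      have hfg : Group.FG A := inferInstance
      have : Countable A := by
        obtain ⟨S, hS, φ, hφ⟩ := Group.fg_iff_exists_freeGroup_hom_surjective.mp hfg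
        have : Countable S := hS.countable.to_subtype
        exact hφ.countable
      exact lex_noBase A V hV hV' hsep
    · exfalso
      apply h
      exact noBase_congr e e1 e2 (prod_noBase A₁ A₂)

end Pool.Agent.Y42.AB
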