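import Pool.Agent.Y42.AB.Pack
import Pool.Agent.Y42.AB.Fin

/-! Lexicographic extensions of any cardinality: reduced products over countable sub-ℓ-groups. -/

namespace Pool.Agent.Y42.AB

open Pool.Agent.Helper539.LG Filter

universe u

section

variable {ι : Type} {l : Filter ι} {M : Type} [Group M] [Lattice M] [MulLeftMono M]
  [MulRightMono M]

instance germLeft : MulLeftMono (Germ l M) :=
  ⟨fun a x y h => by
    induction a using Germ.inductionOn with
    | _ a =>
      induction x using Germ.inductionOn with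
      | _ x =>
        induction y using Germ.inductionOn with
        | _ y =>
          have h' : x ≤ᶠ[l] y := Germ.coe_le.mp h
          exact Germ.coe_le.mpr (h'.mono fun i hi => mulLL hi (a i))⟩

instance germRight : MulRightMono (Germ l M) :=
  ⟨fun a x y h => by
    induction a using Germ.inductionOn with
    | _ a =>
      induction x using Germ.inductionOn with
      | _ x =>
        induction y using Germ.inductionOn with
        | _ y =>
          have h' : x ≤ᶠ[l] y := Germ.coe_le.mp h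
          exact Germ.coe_le.mpr (h'.mono fun i hi => mulRR hi (a i))⟩

end

/-- Homomorphism into the reduced product. -/
def germHom {A : Type} [Group A] {ι : Type} (l : Filter ι) {M : Type} [Group M]
    (r : ι → A → M) (h1 : ∀ i, r i 1 = 1)
    (hm : ∀ x y, ∀ᶠ i in l, r i (x * y) = r i x * r i y) : A →* Germ l M where
  toFun x := ((fun i => r i x : ι → M) : Germ l M)
  map_one' := by
    have : (fun i => r i 1) = (1 : ι → M) := funext h1
    rw [this]; rfl
  map_mul' x y := Germ.coe_eq.mpr (hm x y)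

theorem gen_noBase {A : Type} [Group A] [Lattice A] [MulLeftMono A] [MulRightMono A]
    {V : Subgroup A} [V.Normal] (hV : V ≠ ⊥) (hV' : V ≠ ⊤)
    (hsep : ∀ x, x ∉ V → (∀ v ∈ V, v < x) ∨ (∀ v ∈ V, x < v)) : NoBase.{u} A := by
  classical
  obtain ⟨b, hbV, hb⟩ := exists_pos_mem hV hsep
  obtain ⟨g, hgV, hg⟩ : ∃ g : A, g ∉ V ∧ 1 < g := by
    have : ∃ x : A, x ∉ V := by
      by_contra h
      push Not at h
      exact hV' ((Subgroup.eq_top_iff' V).mpr h)
    obtain ⟨x, hx⟩ := this
    rcases hsep x hx with h | h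
    · exact ⟨x, hx, h 1 V.one_mem⟩
    · refine ⟨x⁻¹, fun h' => hx (by simpa using V.inv_mem h'), ?_⟩
      exact one_lt_inv'.mpr (h 1 V.one_mem)
  choose H hHS hHc hHs using fun F : Finset A =>
    exists_countable_closure ((F : Set A) ∪ {g, b})
      (F.finite_toSet.union (Set.toFinite _)).countable
  have hgH : ∀ F, g ∈ H F := fun F => hHS F (Or.inr (Or.inl rfl))
  have hbH : ∀ F, b ∈ H F := fun F => hHS F (Or.inr (Or.inr rfl))
  choose r π S T hhom hr1 hπ1 hinj hπb hπg hS1 hS2 hT1 hT2 hW using fun F : Finset A =>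
    pack_sub (V := V) hsep hgV hg hbV hb (H F) (hHc F) (hHs F) (hgH F) (hbH F)
  have hev : ∀ x : A, ∀ᶠ F : Finset A in atTop, x ∈ H F := by
    intro x
    filter_upwards [eventually_ge_atTop ({x} : Finset A)] with F hF
    exact hHS F (Or.inl (hF (Finset.mem_singleton_self x)))
  have hev2 : ∀ x y : A, ∀ᶠ F : Finset A in atTop, x ∈ H F ∧ y ∈ H F :=
    fun x y => (hev x).and (hev y)
  let f : A →* Germ (atTop : Filter (Finset A)) (Aut ℚ) := germHom atTop r hr1
    (fun x y => (hev2 x y).mono fun F h => (hhom F x h.1 y h.2).1)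
  let p : A →* Germ (atTop : Filter (Finset A)) (Aut ℚ) := germHom atTop π hπ1
    (fun x y => (hev2 x y).mono fun F h => (hhom F x h.1 y h.2).2.2.2.1)
  have hf : IsLEmb f := by
    refine ⟨?_, ?_, ?_⟩
    · rw [injective_iff_map_eq_one]
      intro x hx
      have h1 : (fun F => r F x) =ᶠ[atTop] (fun _ => 1) := Germ.coe_eq.mp hx
      obtain ⟨F, h2, h3⟩ := (h1.and (hev x)).exists
      exact hinj F x h3 h2
    · intro x y
      exact Germ.coe_eq.mpr ((hev2 x y).mono fun F h => (hhom F x h.1 y h.2).2.1)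
    · intro x y
      exact Germ.coe_eq.mpr ((hev2 x y).mono fun F h => (hhom F x h.1 y h.2).2.2.1)
  have hp : IsLHom p := by
    refine ⟨?_, ?_⟩
    · intro x y
      exact Germ.coe_eq.mpr ((hev2 x y).mono fun F h => (hhom F x h.1 y h.2).2.2.2.2.1)
    · intro x y
      exact Germ.coe_eq.mpr ((hev2 x y).mono fun F h => (hhom F x h.1 y h.2).2.2.2.2.2)
  have hpmono : ∀ x y : A, x ≤ y → p x ≤ p y := by
    intro x y h
    rw [← inf_eq_left.mpr h, hp.1]
    exact inf_le_right
  have hpb : p b = 1 := Germ.coe_eq.mpr (Eventually.of_forall hπb)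
  have hpg : p g ≠ 1 := by
    intro h
    have h1 : (fun F => π F g) =ᶠ[atTop] (fun _ => 1) := Germ.coe_eq.mp h
    obtain ⟨F, h2⟩ := h1.exists
    exact hπg F h2
  have h1b : 1 ≤ f b := by rw [← map_one f]; exact hf.mono hb.le
  have h1g : 1 ≤ f g := by rw [← map_one f]; exact hf.mono hg.le
  have h1p : 1 ≤ p g := by rw [← map_one p]; exact hpmono _ _ hg.le
  let SS : Germ (atTop : Filter (Finset A)) (Aut ℚ) := ((S : Finset A → Aut ℚ) : Germ _ _)
  let TT : Germ (atTop : Filter (Finset A)) (Aut ℚ) := ((T : Finset A → Aut ℚ) : Germ _ _)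
  have hSS1 : SS ≤ f g ^ 12 := Germ.coe_le.mpr (Eventually.of_forall hS1)
  have hSS2 : 1 ≤ f g ^ 12 * SS := Germ.coe_le.mpr (Eventually.of_forall hS2)
  have hTT1 : TT ≤ f g ^ 12 := Germ.coe_le.mpr (Eventually.of_forall hT1)
  have hTT2 : 1 ≤ f g ^ 12 * TT := Germ.coe_le.mpr (Eventually.of_forall hT2)
  have hWW : f g ≤ ((TT * f b * TT⁻¹) * (SS * f b * SS⁻¹)) *
      ((TT * f b * TT⁻¹) * (SS * f b * SS⁻¹)) := Germ.coe_le.mpr (Eventually.of_forall hW)
  let gC : A →* Germ (atTop : Filter (Finset A)) (Aut ℚ) ×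
      Germ (atTop : Filter (Finset A)) (Aut ℚ) := p.prod f
  have hge : IsLEmb gC := by
    refine ⟨?_, ?_, ?_⟩
    · intro x y h
      exact hf.1 (congrArg Prod.snd h)
    · intro x y
      exact Prod.ext (hp.1 x y) (hf.2.1 x y)
    · intro x y
      exact Prod.ext (hp.2 x y) (hf.2.2 x y)
  refine ⟨_, inferInstance, inferInstance, inferInstance, inferInstance,
    _, inferInstance, inferInstance, inferInstance, inferInstance, f, gC, hf, hge, ?_⟩
  intro D _ _ _ _ f' g' hf' hg' h
  have hx : ∀ x, f' (f x) = g' (gC x) := fun x => congrArg (fun φ => φ x) h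
  refine obst_lex (g := g' (gC g)) (g2 := g' (1, f g)) (v := g' (p g, 1)) (b := g' (gC b))
    (s := f' SS) (t := f' TT) (k := 12) ?_ ?_ ?_ ?_ ?_ ?_ ?_ ?_ ?_ ?_ ?_
  · rw [← map_one g']
    exact hg'.mono ⟨h1p, le_rfl⟩
  · rw [← map_one g']
    intro e
    exact hpg (congrArg Prod.fst (hg'.1 e))
  · rw [← map_one g']
    exact hg'.mono ⟨le_rfl, h1g⟩
  · rw [← hg'.2.1, ← map_one g']
    congr 1
    apply Prod.ext
    · exact inf_eq_right.mpr h1p
    · exact inf_eq_left.mpr h1g
  · rw [← hg'.2.1, ← map_one g']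
    congr 1
    apply Prod.ext
    · show p g ⊓ p b = 1
      rw [hpb]
      exact inf_eq_right.mpr h1p
    · exact inf_eq_left.mpr h1b
  · rw [← map_mul]
    have h1 : gC g = (p g, 1) * (1, f g) := by
      apply Prod.ext
      · exact (mul_one _).symm
      · exact (one_mul _).symm
    rw [h1]
  · rw [← hx, ← map_pow]
    exact hf'.mono hSS1
  · rw [← hx, ← map_pow, ← map_mul, ← map_one f']
    exact hf'.mono hSS2
  · rw [← hx, ← map_pow]
    exact hf'.mono hTT1
  · rw [← hx, ← map_pow, ← map_mul, ← map_one f']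
    exact hf'.mono hTT2
  · rw [← hx, ← hx]
    simp only [← map_inv, ← map_mul]
    exact hf'.mono hWW

end Pool.Agent.Y42.AB
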