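import Pool.Agent.Y42.AB.Ext
import Pool.Agent.Y42.AB.Exp6

/-! The data of the obstruction on countable sub-ℓ-groups. -/

namespace Pool.Agent.Y42.AB

open Pool.Agent.Helper539.LG

/-- The subgroup generated by a set and its pairwise joins. -/
def stepUp {A : Type} [Group A] [Lattice A] (H : Subgroup A) : Subgroup A :=
  Subgroup.closure ((H : Set A) ∪ Set.image2 (· ⊔ ·) (H : Set A) (H : Set A))

/-- The iterates. -/
def iter {A : Type} [Group A] [Lattice A] (S : Set A) : ℕ → Subgroup A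
  | 0 => Subgroup.closure S
  | n + 1 => stepUp (iter S n)

theorem closure_countable {A : Type} [Group A] (T : Set A) (hT : T.Countable) :
    ((Subgroup.closure T : Subgroup A) : Set A).Countable := by
  have : Countable T := hT.to_subtype
  rw [FreeGroup.closure_eq_range, MonoidHom.coe_range]
  exact Set.countable_range _

/-- Countable sets lie in countable sub-ℓ-groups. -/
theorem exists_countable_closure {A : Type} [Group A] [Lattice A] (S : Set A)
    (hS : S.Countable) : ∃ H : Subgroup A, S ⊆ H ∧ (H : Set A).Countable ∧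
      ∀ x ∈ H, ∀ y ∈ H, x ⊔ y ∈ H := by
  have hmono : Monotone (iter S) := by
    apply monotone_nat_of_le_succ
    intro n x hx
    exact Subgroup.subset_closure (Or.inl hx)
  have hcount : ∀ n, (iter S n : Set A).Countable := by
    intro n
    induction n with
    | zero => exact closure_countable S hS
    | succ n ih => exact closure_countable _ (ih.union (ih.image2 ih _))
  have hdir : Directed (· ≤ ·) (iter S) := hmono.directed_le
  refine ⟨⨆ n, iter S n, ?_, ?_, ?_⟩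
  · intro x hx
    exact (Subgroup.mem_iSup_of_directed hdir).mpr ⟨0, Subgroup.subset_closure hx⟩
  · have : ((⨆ n, iter S n : Subgroup A) : Set A) = ⋃ n, (iter S n : Set A) := by
      ext x
      rw [Set.mem_iUnion]
      exact Subgroup.mem_iSup_of_directed hdir
    rw [this]
    exact Set.countable_iUnion hcount
  · intro x hx y hy
    obtain ⟨m, hm⟩ := (Subgroup.mem_iSup_of_directed hdir).mp hx
    obtain ⟨n, hn⟩ := (Subgroup.mem_iSup_of_directed hdir).mp hy
    refine (Subgroup.mem_iSup_of_directed hdir).mpr ⟨max m n + 1, ?_⟩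
    exact Subgroup.subset_closure (Or.inr ⟨x, hmono (le_max_left m n) hm, y,
      hmono (le_max_right m n) hn, rfl⟩)

section

variable {A : Type} [Group A] [Lattice A] [MulLeftMono A] [MulRightMono A]
  {V : Subgroup A}

/-- The data for a countable ℓ-group. -/
theorem pack [Countable A] [V.Normal]
    (hsep : ∀ x, x ∉ V → (∀ v ∈ V, v < x) ∨ (∀ v ∈ V, x < v)) {g b : A} (hgV : g ∉ V)
    (hg : 1 < g) (hbV : b ∈ V) (hb : 1 < b) :
    ∃ (r π : A →* Aut ℚ) (S T : Aut ℚ), IsLEmb r ∧ IsLHom π ∧ π b = 1 ∧ π g ≠ 1 ∧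
      S ≤ r g ^ 12 ∧ 1 ≤ r g ^ 12 * S ∧ T ≤ r g ^ 12 ∧ 1 ≤ r g ^ 12 * T ∧
      r g ≤ ((T * r b * T⁻¹) * (S * r b * S⁻¹)) * ((T * r b * T⁻¹) * (S * r b * S⁻¹)) := by
  classical
  have hV : V ≠ ⊥ := by
    intro h
    rw [h, Subgroup.mem_bot] at hbV
    exact hb.ne' hbV
  have hbg : b ≤ g := (above hsep hgV hg.le b hbV).le
  obtain ⟨ρ, hinj, hsup, hinf, hmove, hpt⟩ := Pool.Agent.Y409.AB.t_CHAIN A V hV hsep
  let r : A →* Aut ℚ := ρ
  have hρ : IsLEmb r := by
    refine ⟨hinj, ?_, ?_⟩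
    · intro x y
      apply Aut.ext
      intro q
      exact hinf x y q
    · intro x y
      apply Aut.ext
      intro q
      exact hsup x y q
  obtain ⟨π, hπ, hπV, hπg⟩ := quot_rep hV hsep
  have h1b : 1 ≤ r b := by rw [← map_one r]; exact hρ.mono hb.le
  have h1g : 1 ≤ r g := by rw [← map_one r]; exact hρ.mono hg.le
  have hrbg : r b ≤ r g := hρ.mono hbg
  obtain ⟨s, t, hs, hs', ht, ht', hW⟩ := E6.t_EXPAND6 (ρ g * ρ g) (ρ b)
    (fun x => (hmove g hgV hg x).trans (hmove g hgV hg _))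
    (fun x => h1b x)
    (fun x => lt_of_le_of_lt (hrbg x) (hmove g hgV hg _))
    (fun x => hpt g hgV hg b hbV hb x)
  have hpow : ((ρ g * ρ g) ^ 6 : ℚ ≃o ℚ) = (r g ^ 12 : Aut ℚ) := by
    rw [show 12 = 2 * 6 by norm_num, pow_mul, pow_two]
    rfl
  set S : Aut ℚ := s with hS
  set T : Aut ℚ := t with hT
  refine ⟨r, π, S, T, hρ, hπ, hπV b hbV, hπg g hgV hg, ?_, ?_, ?_, ?_, ?_⟩
  · rw [← hpow]; exact hs
  · rw [← hpow]; exact hs'
  · rw [← hpow]; exact ht
  · rw [← hpow]; exact ht'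
  · have h1 : r g ≤ r g * r g := le_mul_of_one_le_left' h1g
    exact h1.trans hW

/-- The data on a countable sub-ℓ-group, as functions on the whole group. -/
theorem pack_sub [V.Normal]
    (hsep : ∀ x, x ∉ V → (∀ v ∈ V, v < x) ∨ (∀ v ∈ V, x < v)) {g b : A} (hgV : g ∉ V)
    (hg : 1 < g) (hbV : b ∈ V) (hb : 1 < b) (H : Subgroup A) (hc : (H : Set A).Countable)
    (hH : ∀ x ∈ H, ∀ y ∈ H, x ⊔ y ∈ H) (hgH : g ∈ H) (hbH : b ∈ H) :
    ∃ (r π : A → Aut ℚ) (S T : Aut ℚ),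
      (∀ x ∈ H, ∀ y ∈ H, r (x * y) = r x * r y ∧ r (x ⊓ y) = r x ⊓ r y ∧
        r (x ⊔ y) = r x ⊔ r y ∧ π (x * y) = π x * π y ∧ π (x ⊓ y) = π x ⊓ π y ∧
        π (x ⊔ y) = π x ⊔ π y) ∧
      r 1 = 1 ∧ π 1 = 1 ∧ (∀ x ∈ H, r x = 1 → x = 1) ∧ π b = 1 ∧ π g ≠ 1 ∧
      S ≤ r g ^ 12 ∧ 1 ≤ r g ^ 12 * S ∧ T ≤ r g ^ 12 ∧ 1 ≤ r g ^ 12 * T ∧
      r g ≤ ((T * r b * T⁻¹) * (S * r b * S⁻¹)) * ((T * r b * T⁻¹) * (S * r b * S⁻¹)) := by
  classical
  have hHinf : ∀ x ∈ H, ∀ y ∈ H, x ⊓ y ∈ H := by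
    intro x hx y hy
    have h1 := H.inv_mem (hH _ (H.inv_mem hx) _ (H.inv_mem hy))
    rwa [inv_sup, inv_inv, inv_inv] at h1
  let _ : Lattice H := Subtype.lattice (fun x y hx hy => hH x hx y hy)
    (fun x y hx hy => hHinf x hx y hy)
  have _ : MulLeftMono H := ⟨fun a x y h => by
    show (a : A) * x ≤ (a : A) * y
    exact mulLL (show (x : A) ≤ y from h) (a : A)⟩
  have _ : MulRightMono H := ⟨fun a x y h => by
    show (x : A) * a ≤ (y : A) * a
    exact mulRR (show (x : A) ≤ y from h) (a : A)⟩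
  have _ : Countable H := hc.to_subtype
  have hsep' : ∀ x : H, x ∉ V.subgroupOf H →
      (∀ v ∈ V.subgroupOf H, v < x) ∨ (∀ v ∈ V.subgroupOf H, x < v) := by
    intro x hx
    rcases hsep x hx with h | h
    · exact Or.inl fun v hv => h v hv
    · exact Or.inr fun v hv => h v hv
  obtain ⟨r, π, S, T, h1, h2, h3, h4, h5, h6, h7, h8, h9⟩ := pack (A := H)
    (V := V.subgroupOf H) hsep' (g := ⟨g, hgH⟩) (b := ⟨b, hbH⟩) hgV hg hbV hb
  have ev : ∀ (φ : H →* Aut ℚ) (x : A) (hx : x ∈ H),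
      (if h : x ∈ H then φ ⟨x, h⟩ else 1) = φ ⟨x, hx⟩ := fun φ x hx => dif_pos hx
  refine ⟨fun x => if h : x ∈ H then r ⟨x, h⟩ else 1, fun x => if h : x ∈ H then π ⟨x, h⟩ else 1,
    S, T, ?_, ?_, ?_, ?_, ?_, ?_, ?_, ?_, ?_, ?_, ?_⟩
  · intro x hx y hy
    have hxy := H.mul_mem hx hy
    have hi := hHinf x hx y hy
    have hs := hH x hx y hy
    refine ⟨?_, ?_, ?_, ?_, ?_, ?_⟩
    · simp only [dif_pos hx, dif_pos hy, dif_pos hxy]
      rw [← map_mul]; rfl
    · simp only [dif_pos hx, dif_pos hy, dif_pos hi]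
      rw [← h1.2.1]; rfl
    · simp only [dif_pos hx, dif_pos hy, dif_pos hs]
      rw [← h1.2.2]; rfl
    · simp only [dif_pos hx, dif_pos hy, dif_pos hxy]
      rw [← map_mul]; rfl
    · simp only [dif_pos hx, dif_pos hy, dif_pos hi]
      rw [← h2.1]; rfl
    · simp only [dif_pos hx, dif_pos hy, dif_pos hs]
      rw [← h2.2]; rfl
  · simp only [dif_pos H.one_mem]
    exact map_one r
  · simp only [dif_pos H.one_mem]
    exact map_one π
  · intro x hx
    simp only [dif_pos hx]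
    intro h
    have := h1.1 (h.trans (map_one r).symm)
    exact congrArg Subtype.val this
  · simp only [dif_pos hbH]
    exact h3
  · simp only [dif_pos hgH]
    exact h4
  · simp only [dif_pos hgH]
    exact h5
  · simp only [dif_pos hgH]
    exact h6
  · simp only [dif_pos hgH]
    exact h7
  · simp only [dif_pos hgH]
    exact h8
  · simp only [dif_pos hgH, dif_pos hbH]
    exact h9

end

end Pool.Agent.Y42.AB
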